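import Pool.Agent.Lib.MP_a3e05c_co.Pins.Defs

set_option autoImplicit false

/-!
# MP_a3e05c_co, pins: choice of a sparse set of hubs
-/

namespace Pool.Agent.MP_a3e05c_co.Pins

open Finset

section Colour

variable {V : Type*} [DecidableEq V]

theorem sum_sum_insert {X : Finset V} {a : V} (ha : a ∉ X) (F : V → V → ℝ) (hF : F a a = 0) :
    ∑ x ∈ insert a X, ∑ y ∈ insert a X, F x y =
      ∑ x ∈ X, ∑ y ∈ X, F x y + ∑ y ∈ X, (F a y + F y a) := by
  rw [Finset.sum_insert ha, Finset.sum_insert ha, hF, zero_add]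
  have h1 : ∀ x ∈ X, ∑ y ∈ insert a X, F x y = F x a + ∑ y ∈ X, F x y := fun x _ =>
    Finset.sum_insert ha
  rw [Finset.sum_congr rfl h1, Finset.sum_add_distrib, Finset.sum_add_distrib]
  ring

/-- A colouring with `r` colours which keeps at most a part `1 / r` of the conflicts. -/
theorem exists_colouring {r : ℕ} (hr : 0 < r) (w : V → V → ℝ) (hw0 : ∀ x, w x x = 0)
    (X : Finset V) : ∃ f : V → Fin r,
      (r : ℝ) * ∑ x ∈ X, ∑ y ∈ X, (if f x = f y then w x y else 0) ≤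
        ∑ x ∈ X, ∑ y ∈ X, w x y := by
  induction X using Finset.induction_on with
  | empty => exact ⟨fun _ => ⟨0, hr⟩, by simp⟩
  | insert a X ha ih =>
    obtain ⟨f, hf⟩ := ih
    have h1 : ∑ i : Fin r, ∑ y ∈ X, (if f y = i then w a y + w y a else 0) =
        ∑ y ∈ X, (w a y + w y a) := by
      rw [Finset.sum_comm]
      refine Finset.sum_congr rfl fun y _ => ?_
      simp
    obtain ⟨i, -, hi⟩ : ∃ i ∈ (Finset.univ : Finset (Fin r)),
        ∑ y ∈ X, (if f y = i then w a y + w y a else 0) ≤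
          (∑ y ∈ X, (w a y + w y a)) / r := by
      refine Finset.exists_le_of_sum_le ⟨⟨0, hr⟩, Finset.mem_univ _⟩ ?_
      rw [h1, Finset.sum_const, Finset.card_univ, Fintype.card_fin, nsmul_eq_mul]
      have hr' : (r : ℝ) ≠ 0 := by positivity
      rw [mul_div_cancel₀ _ hr']
    refine ⟨Function.update f a i, ?_⟩
    have hne : ∀ x ∈ X, x ≠ a := fun x hx h => ha (h ▸ hx)
    rw [sum_sum_insert ha _ (by simp [hw0]), sum_sum_insert ha _ (hw0 a)]
    have h2 : ∑ x ∈ X, ∑ y ∈ X, (if Function.update f a i x = Function.update f a i y then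
        w x y else 0) = ∑ x ∈ X, ∑ y ∈ X, (if f x = f y then w x y else 0) := by
      refine Finset.sum_congr rfl fun x hx => Finset.sum_congr rfl fun y hy => ?_
      rw [Function.update_of_ne (hne x hx), Function.update_of_ne (hne y hy)]
    have h3 : ∑ y ∈ X, ((if Function.update f a i a = Function.update f a i y then w a y else 0) +
        (if Function.update f a i y = Function.update f a i a then w y a else 0)) =
        ∑ y ∈ X, (if f y = i then w a y + w y a else 0) := by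
      refine Finset.sum_congr rfl fun y hy => ?_
      rw [Function.update_self, Function.update_of_ne (hne y hy)]
      by_cases h : f y = i
      · simp [h]
      · simp [h, Ne.symm h]
    rw [h2, h3, mul_add]
    have hr' : (0 : ℝ) < r := by exact_mod_cast hr
    have h4 := mul_le_mul_of_nonneg_left hi hr'.le
    rw [mul_div_cancel₀ _ hr'.ne'] at h4
    linarith

/-- Choice of a colour class. -/
theorem exists_class {r : ℕ} (hr : 0 < r) (a : V → ℝ) (w : V → V → ℝ) (hw0 : ∀ x, w x x = 0)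
    (X : Finset V) : ∃ P ⊆ X,
      (1 / r : ℝ) * (∑ x ∈ X, a x - (1 / r : ℝ) * ∑ x ∈ X, ∑ y ∈ X, w x y) ≤
        ∑ x ∈ P, a x - ∑ x ∈ P, ∑ y ∈ P, w x y := by
  obtain ⟨f, hf⟩ := exists_colouring hr w hw0 X
  have hr' : (0 : ℝ) < r := by exact_mod_cast hr
  have h1 : ∑ i : Fin r, (∑ x ∈ X with f x = i, a x -
      ∑ x ∈ X with f x = i, ∑ y ∈ X with f y = i, w x y) =
      ∑ x ∈ X, a x - ∑ x ∈ X, ∑ y ∈ X, (if f x = f y then w x y else 0) := by
    rw [Finset.sum_sub_distrib, Finset.sum_fiberwise]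
    congr 1
    have h2 : ∀ i : Fin r, ∑ x ∈ X with f x = i, ∑ y ∈ X with f y = i, w x y =
        ∑ x ∈ X with f x = i, ∑ y ∈ X, (if f x = f y then w x y else 0) := by
      intro i
      refine Finset.sum_congr rfl fun x hx => ?_
      rw [Finset.sum_filter]
      refine Finset.sum_congr rfl fun y _ => ?_
      rw [(Finset.mem_filter.1 hx).2]
      by_cases h : f y = i
      · simp [h]
      · simp [h, Ne.symm h]
    rw [Finset.sum_congr rfl fun i _ => h2 i, Finset.sum_fiberwise]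
  obtain ⟨i, -, hi⟩ : ∃ i ∈ (Finset.univ : Finset (Fin r)),
      (1 / r : ℝ) * (∑ x ∈ X, a x - (1 / r : ℝ) * ∑ x ∈ X, ∑ y ∈ X, w x y) ≤
        ∑ x ∈ X with f x = i, a x - ∑ x ∈ X with f x = i, ∑ y ∈ X with f y = i, w x y := by
    refine Finset.exists_le_of_sum_le ⟨⟨0, hr⟩, Finset.mem_univ _⟩ ?_
    rw [h1, Finset.sum_const, Finset.card_univ, Fintype.card_fin, nsmul_eq_mul]
    have h3 : (r : ℝ) * ((1 / r : ℝ) * (∑ x ∈ X, a x - (1 / r : ℝ) * ∑ x ∈ X, ∑ y ∈ X, w x y)) =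
        ∑ x ∈ X, a x - (1 / r : ℝ) * ∑ x ∈ X, ∑ y ∈ X, w x y := by
      field_simp
    rw [h3]
    have h4 : ∑ x ∈ X, ∑ y ∈ X, (if f x = f y then w x y else 0) ≤
        (1 / r : ℝ) * ∑ x ∈ X, ∑ y ∈ X, w x y := by
      rw [one_div, inv_mul_eq_div, le_div_iff₀ hr', mul_comm]
      exact hf
    linarith
  exact ⟨X.filter fun x => f x = i, Finset.filter_subset _ _, hi⟩

end Colour

section Hubs

variable {V : Type*} [Fintype V] [DecidableEq V] (G : SimpleGraph V) [DecidableRel G.Adj]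

theorem seen_eq_sum (D : Finset V) (v : V) :
    (seen G D v : ℝ) = ∑ p ∈ D, (if G.Adj v p then (1 : ℝ) else 0) := by
  unfold seen
  rw [Finset.card_filter]
  push_cast
  rfl

variable {G} {d : ℕ} {g c h : ℝ}

/-- Any set of pins. -/
theorem gain_hubs (hh : 0 ≤ h) (P : Finset V) :
    Gain G d g c h P (-(h / d) * ∑ x ∈ P, ∑ y ∈ P, (if G.Adj x y then (1 : ℝ) else 0)) := by
  induction P using Finset.induction_on with
  | empty => simpa using (Gain.empty : Gain G d g c h ∅ 0)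
  | insert a P ha ih =>
    refine (ih.hub ha).weaken ?_
    rw [sum_sum_insert ha _ (by simp), seen_eq_sum, Finset.sum_add_distrib]
    have h1 : 0 ≤ h / d * ∑ y ∈ P, (if G.Adj y a then (1 : ℝ) else 0) := by
      refine mul_nonneg (by positivity) (Finset.sum_nonneg fun y _ => ?_)
      split_ifs <;> norm_num
    have h2 : h * (∑ p ∈ P, (if G.Adj a p then (1 : ℝ) else 0)) / d =
        h / d * ∑ p ∈ P, (if G.Adj a p then (1 : ℝ) else 0) := by ring
    rw [h2]
    linarith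

/-- The general selection lemma: blocks with hubs. -/
theorem blocks_gain {ι : Type*} [DecidableEq ι] (hd : 0 < d) (hreg : G.IsRegularOfDegree d)
    (hh : 0 ≤ h) {G₀ : ℝ}
    (hG₀ : 0 ≤ G₀) (𝒜 : Finset ι) (xp : ι → V) (bad : ι → V → ℝ) (hbad : ∀ i y, 0 ≤ bad i y)
    (hbad0 : ∀ i, bad i (xp i) = 0) {B : ℝ}
    (hB : ∀ i ∈ 𝒜, ∑ y ∈ 𝒜.image xp, bad i y ≤ B) {r : ℕ} (hr : 0 < r)
    (hext : ∀ P ⊆ 𝒜.image xp, ∀ 𝒢 ⊆ 𝒜, (∀ i ∈ 𝒢, xp i ∈ P ∧ ∑ y ∈ P, bad i y < 1) →
      ∀ s, Gain G d g c h P s → ∃ D, Gain G d g c h D (s + 𝒢.card * G₀)) :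
    ∃ D s, Gain G d g c h D s ∧
      (1 / r : ℝ) * (𝒜.card * (G₀ - (1 / r : ℝ) * (G₀ * B + h))) ≤ s := by
  have hd' : (0 : ℝ) < d := by exact_mod_cast hd
  have hr' : (0 : ℝ) < r := by exact_mod_cast hr
  set X := 𝒜.image xp with hX
  set w : V → V → ℝ := fun x y => G₀ * ∑ i ∈ 𝒜 with xp i = x, bad i y +
    h / d * (if G.Adj x y then (1 : ℝ) else 0) with hw
  set a : V → ℝ := fun x => G₀ * ((𝒜.filter fun i => xp i = x).card : ℝ) with ha
  have hw0 : ∀ x, w x x = 0 := by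
    intro x
    have h1 : ∑ i ∈ 𝒜 with xp i = x, bad i x = 0 := by
      refine Finset.sum_eq_zero fun i hi => ?_
      have := (Finset.mem_filter.1 hi).2
      rw [← this]
      exact hbad0 i
    simp [hw, h1]
  obtain ⟨P, hPX, hP⟩ := exists_class hr a w hw0 X
  have hmaps : ∀ i ∈ 𝒜, xp i ∈ X := fun i hi => Finset.mem_image_of_mem xp hi
  -- the sums over X
  have hsa : ∑ x ∈ X, a x = G₀ * 𝒜.card := by
    rw [ha, ← Finset.mul_sum]
    congr 1
    rw [Finset.card_eq_sum_card_fiberwise hmaps]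
    push_cast
    rfl
  have hsw : ∑ x ∈ X, ∑ y ∈ X, w x y ≤ 𝒜.card * (G₀ * B + h) := by
    have h1 : ∑ x ∈ X, ∑ y ∈ X, w x y = G₀ * ∑ i ∈ 𝒜, ∑ y ∈ X, bad i y +
        h / d * ∑ x ∈ X, ∑ y ∈ X, (if G.Adj x y then (1 : ℝ) else 0) := by
      rw [← Finset.sum_fiberwise_of_maps_to hmaps, Finset.mul_sum, Finset.mul_sum,
        ← Finset.sum_add_distrib]
      refine Finset.sum_congr rfl fun x _ => ?_
      rw [Finset.sum_add_distrib, ← Finset.mul_sum, ← Finset.mul_sum, Finset.sum_comm]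
    have h2 : ∑ i ∈ 𝒜, ∑ y ∈ X, bad i y ≤ 𝒜.card * B := by
      calc ∑ i ∈ 𝒜, ∑ y ∈ X, bad i y ≤ ∑ i ∈ 𝒜, B := Finset.sum_le_sum hB
        _ = 𝒜.card * B := by rw [Finset.sum_const, nsmul_eq_mul]
    have h3 : ∑ x ∈ X, ∑ y ∈ X, (if G.Adj x y then (1 : ℝ) else 0) ≤ 𝒜.card * d := by
      calc ∑ x ∈ X, ∑ y ∈ X, (if G.Adj x y then (1 : ℝ) else 0) ≤ ∑ x ∈ X, (d : ℝ) := by
            refine Finset.sum_le_sum fun x _ => ?_
            rw [← seen_eq_sum]
            have h4 : seen G X x ≤ G.degree x := by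
              unfold seen
              rw [← G.card_neighborFinset_eq_degree]
              refine Finset.card_le_card fun y hy => ?_
              rw [SimpleGraph.mem_neighborFinset]
              exact (Finset.mem_filter.1 hy).2
            rw [hreg x] at h4
            exact_mod_cast h4
        _ = X.card * d := by rw [Finset.sum_const, nsmul_eq_mul]
        _ ≤ 𝒜.card * d := by
            have : X.card ≤ 𝒜.card := Finset.card_image_le
            gcongr
    rw [h1]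
    have h5 : h / d * ∑ x ∈ X, ∑ y ∈ X, (if G.Adj x y then (1 : ℝ) else 0) ≤
        h / d * (𝒜.card * d) := mul_le_mul_of_nonneg_left h3 (by positivity)
    have h6 : h / d * (𝒜.card * d) = 𝒜.card * h := by field_simp
    have h7 := mul_le_mul_of_nonneg_left h2 hG₀
    nlinarith
  -- the good blocks
  set 𝒢 := 𝒜.filter fun i => xp i ∈ P ∧ ∑ y ∈ P, bad i y < 1 with h𝒢
  have hcard : ∑ x ∈ P, a x - G₀ * ∑ x ∈ P, ∑ y ∈ P, ∑ i ∈ 𝒜 with xp i = x, bad i y ≤
      𝒢.card * G₀ := by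
    have h1 : ∑ x ∈ P, a x - G₀ * ∑ x ∈ P, ∑ y ∈ P, ∑ i ∈ 𝒜 with xp i = x, bad i y =
        G₀ * ∑ i ∈ 𝒜 with xp i ∈ P, (1 - ∑ y ∈ P, bad i y) := by
      rw [ha, ← Finset.mul_sum, ← mul_sub, ← Finset.sum_sub_distrib]
      congr 1
      have h2 : ∀ x ∈ P, ((𝒜.filter fun i => xp i = x).card : ℝ) -
          ∑ y ∈ P, ∑ i ∈ 𝒜 with xp i = x, bad i y =
          ∑ i ∈ 𝒜 with xp i = x, (1 - ∑ y ∈ P, bad i y) := by
        intro x _
        rw [Finset.sum_sub_distrib, Finset.sum_const, nsmul_eq_mul, mul_one, Finset.sum_comm]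
      rw [Finset.sum_congr rfl h2]
      have h3 : ∀ i ∈ (𝒜.filter fun i => xp i ∈ P), xp i ∈ P := fun i hi =>
        (Finset.mem_filter.1 hi).2
      rw [← Finset.sum_fiberwise_of_maps_to h3]
      refine Finset.sum_congr rfl fun x hx => ?_
      refine Finset.sum_congr ?_ fun _ _ => rfl
      ext i
      simp only [Finset.mem_filter]
      constructor
      · rintro ⟨h4, h5⟩
        exact ⟨⟨h4, h5 ▸ hx⟩, h5⟩
      · rintro ⟨⟨h4, -⟩, h5⟩
        exact ⟨h4, h5⟩
    rw [h1, mul_comm]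
    refine mul_le_mul_of_nonneg_right ?_ hG₀
    have h2 : ∑ i ∈ 𝒜 with xp i ∈ P, (1 - ∑ y ∈ P, bad i y) ≤
        ∑ i ∈ 𝒜 with xp i ∈ P, (if ∑ y ∈ P, bad i y < 1 then (1 : ℝ) else 0) := by
      refine Finset.sum_le_sum fun i _ => ?_
      have h3 : 0 ≤ ∑ y ∈ P, bad i y := Finset.sum_nonneg fun y _ => hbad i y
      split_ifs with h4
      · linarith
      · linarith
    refine h2.trans (le_of_eq ?_)
    rw [← Finset.sum_filter, Finset.filter_filter, Finset.sum_const, nsmul_eq_mul, mul_one]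
  obtain ⟨D, hD⟩ := hext P hPX 𝒢 (Finset.filter_subset _ _)
    (fun i hi => (Finset.mem_filter.1 hi).2) _ (gain_hubs hh P)
  refine ⟨D, _, hD, ?_⟩
  have h8 : ∑ x ∈ P, ∑ y ∈ P, w x y =
      G₀ * ∑ x ∈ P, ∑ y ∈ P, ∑ i ∈ 𝒜 with xp i = x, bad i y +
        h / d * ∑ x ∈ P, ∑ y ∈ P, (if G.Adj x y then (1 : ℝ) else 0) := by
    simp only [hw, Finset.mul_sum, Finset.sum_add_distrib]
  have h9 : (1 / r : ℝ) * (𝒜.card * (G₀ - (1 / r : ℝ) * (G₀ * B + h))) ≤
      (1 / r : ℝ) * (∑ x ∈ X, a x - (1 / r : ℝ) * ∑ x ∈ X, ∑ y ∈ X, w x y) := by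
    refine mul_le_mul_of_nonneg_left ?_ (by positivity)
    rw [hsa]
    have h10 := mul_le_mul_of_nonneg_left hsw (by positivity : (0 : ℝ) ≤ 1 / r)
    nlinarith
  linarith

end Hubs

end Pool.Agent.MP_a3e05c_co.Pins
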