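import Pool.Agent.Lib.MP_a3e05c_co.Pins.Stuck
import Pool.Agent.Lib.MP_a3e05c_co.Pins.Select

set_option autoImplicit false

/-!
# MP_a3e05c_co, pins: adding one pin for each of many blocks; facts on blocks
-/

namespace Pool.Agent.MP_a3e05c_co.Pins

open Finset

variable {V : Type*} [Fintype V] [DecidableEq V] {G : SimpleGraph V} [DecidableRel G.Adj]
  {d : ℕ} {g c h : ℝ}

/-- One pin `z i` for each `i ∈ 𝒢`; it has a neighbour `y i` seen once and all of `U i` are
unseen neighbours. -/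
theorem add_pins (hd : 0 < d) (hc : 0 ≤ c) {ι : Type*} [DecidableEq ι] (𝒢 : Finset ι)
    (P : Finset V) (z y : ι → V)
    (U : ι → Finset V) {G₀ : ℝ}
    (hz : ∀ i ∈ 𝒢, z i ∉ P ∧ seen G P (z i) = 0)
    (hzz : ∀ i ∈ 𝒢, ∀ j ∈ 𝒢, i ≠ j → z i ≠ z j ∧ ¬ G.Adj (z i) (z j))
    (hy : ∀ i ∈ 𝒢, G.Adj (z i) (y i) ∧ y i ∉ P ∧ seen G P (y i) = 1)
    (hyz : ∀ i ∈ 𝒢, ∀ j ∈ 𝒢, i ≠ j → y i ≠ z j ∧ ¬ G.Adj (y i) (z j))
    (hU : ∀ i ∈ 𝒢, ∀ v ∈ U i, G.Adj (z i) v ∧ v ∉ P ∧ seen G P v = 0)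
    (hUz : ∀ i ∈ 𝒢, ∀ j ∈ 𝒢, i ≠ j → ∀ v ∈ U i, v ≠ z j ∧ ¬ G.Adj v (z j))
    (hcard : ∀ i ∈ 𝒢, G₀ * d ≤ c * (U i).card) {s : ℝ} (hs : Gain G d g c h P s) :
    ∃ D, Gain G d g c h D (s + 𝒢.card * G₀) := by
  have hd' : (0 : ℝ) < d := by exact_mod_cast hd
  have key : ∀ 𝒢' ⊆ 𝒢, Gain G d g c h (P ∪ 𝒢'.image z) (s + 𝒢'.card * G₀) := by
    intro 𝒢'
    induction 𝒢' using Finset.induction_on with
    | empty =>
      intro _
      simpa using hs
    | insert i 𝒢' hi ih =>
      intro hsub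
      have hi𝒢 : i ∈ 𝒢 := hsub (Finset.mem_insert_self _ _)
      have hsub' : ∀ j ∈ 𝒢', j ∈ 𝒢 := fun j hj => hsub (Finset.mem_insert_of_mem hj)
      have ih' := ih fun j hj => hsub' j hj
      have hne : ∀ j ∈ 𝒢', i ≠ j := fun j hj h1 => hi (h1 ▸ hj)
      set D := P ∪ 𝒢'.image z with hD
      have hmem : ∀ p ∈ D, p ∈ P ∨ ∃ j ∈ 𝒢', z j = p := by
        intro p hp
        rw [hD, Finset.mem_union, Finset.mem_image] at hp
        exact hp
      -- the pin is free
      have h1 : z i ∉ D := by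
        intro hc1
        rcases hmem _ hc1 with h2 | ⟨j, hj, h2⟩
        · exact (hz i hi𝒢).1 h2
        · exact (hzz i hi𝒢 j (hsub' j hj) (hne j hj)).1 h2.symm
      have h2 : seen G D (z i) = 0 := by
        rw [seen_eq_zero_iff]
        intro p hp hadj
        rcases hmem _ hp with h3 | ⟨j, hj, rfl⟩
        · exact seen_eq_zero_iff.1 (hz i hi𝒢).2 p h3 hadj
        · exact (hzz i hi𝒢 j (hsub' j hj) (hne j hj)).2 hadj
      -- the neighbour seen once
      have h3 : 1 ≤ nb1 G D (z i) := by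
        obtain ⟨hy1, hy2, hy3⟩ := hy i hi𝒢
        unfold nb1
        rw [Nat.one_le_iff_ne_zero, ← Nat.pos_iff_ne_zero, Finset.card_pos]
        refine ⟨y i, Finset.mem_filter.2 ⟨Finset.mem_univ _, hy1, ?_, ?_⟩⟩
        · intro hc1
          rcases hmem _ hc1 with h4 | ⟨j, hj, h4⟩
          · exact hy2 h4
          · exact (hyz i hi𝒢 j (hsub' j hj) (hne j hj)).1 h4.symm
        · unfold seen at hy3 ⊢
          rw [Finset.card_eq_one] at hy3
          obtain ⟨p, hp⟩ := hy3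
          have hpm : p ∈ P.filter fun p => G.Adj (y i) p := hp ▸ Finset.mem_singleton_self p
          obtain ⟨hpP, hpa⟩ := Finset.mem_filter.1 hpm
          refine Finset.card_eq_one.2 ⟨p, ?_⟩
          ext q
          rw [Finset.mem_filter, Finset.mem_singleton]
          constructor
          · rintro ⟨hq, hqa⟩
            rcases hmem _ hq with h4 | ⟨j, hj, rfl⟩
            · have : q ∈ P.filter fun p => G.Adj (y i) p := Finset.mem_filter.2 ⟨h4, hqa⟩
              rw [hp] at this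
              exact Finset.mem_singleton.1 this
            · exact absurd hqa (hyz i hi𝒢 j (hsub' j hj) (hne j hj)).2
          · rintro rfl
            exact ⟨Finset.mem_union_left _ hpP, hpa⟩
      -- the unseen neighbours
      have h4 : (U i).card ≤ nb0 G D (z i) := by
        unfold nb0
        refine Finset.card_le_card fun v hv => ?_
        obtain ⟨hv1, hv2, hv3⟩ := hU i hi𝒢 v hv
        refine Finset.mem_filter.2 ⟨Finset.mem_univ _, hv1, ?_, ?_⟩
        · intro hc1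
          rcases hmem _ hc1 with h5 | ⟨j, hj, h5⟩
          · exact hv2 h5
          · exact (hUz i hi𝒢 j (hsub' j hj) (hne j hj) v hv).1 h5.symm
        · rw [seen_eq_zero_iff]
          intro p hp hadj
          rcases hmem _ hp with h5 | ⟨j, hj, rfl⟩
          · exact seen_eq_zero_iff.1 hv3 p h5 hadj
          · exact (hUz i hi𝒢 j (hsub' j hj) (hne j hj) v hv).2 hadj
      have h5 := ih'.full h1 h2 h3
      rw [Finset.image_insert, Finset.union_insert, Finset.card_insert_of_notMem hi]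
      refine h5.weaken ?_
      have h6 : G₀ ≤ c * nb0 G D (z i) / d := by
        rw [le_div_iff₀ hd']
        refine (hcard i hi𝒢).trans (mul_le_mul_of_nonneg_left ?_ hc)
        exact_mod_cast h4
      push_cast
      linarith
  exact ⟨_, key 𝒢 Finset.Subset.rfl⟩

section Facts

variable {e : ℕ} {𝒬 : Finset (Finset V)}

/-- The outer boundary of a set of vertices. -/
def bd (G : SimpleGraph V) [DecidableRel G.Adj] (Q : Finset V) : Finset V :=
  Finset.univ.filter fun x => x ∉ Q ∧ ∃ v ∈ Q, G.Adj v x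

theorem mem_bd {Q : Finset V} {x : V} : x ∈ bd G Q ↔ x ∉ Q ∧ ∃ v ∈ Q, G.Adj v x := by
  simp [bd]

theorem Blocks.bd_notMem (hB : Blocks G d e 𝒬) {Q Q' : Finset V} (hQ : Q ∈ 𝒬) (hQ' : Q' ∈ 𝒬)
    {x : V} (hx : x ∈ bd G Q) : x ∉ Q' := by
  intro hx'
  obtain ⟨h1, v, hv, hvx⟩ := mem_bd.1 hx
  have h2 := hB.sep Q hQ Q' hQ' v hv x hx' hvx
  rw [← h2] at hx'
  exact h1 hx'

theorem Blocks.adj_mem (_ : Blocks G d e 𝒬) {Q : Finset V} {v x : V}
    (hv : v ∈ Q) (h : G.Adj v x) : x ∈ Q ∨ x ∈ bd G Q := by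
  by_cases h1 : x ∈ Q
  · exact Or.inl h1
  · exact Or.inr (mem_bd.2 ⟨h1, v, hv, h⟩)

/-- Few neighbours outside of the block. -/
theorem Blocks.card_out (hB : Blocks G d e 𝒬) (hreg : G.IsRegularOfDegree d) {Q : Finset V}
    (hQ : Q ∈ 𝒬) {v : V} (hv : v ∈ Q) {X : Finset V} (hX : ∀ x ∈ X, x ∉ Q) :
    e * seen G X v ≤ d := by
  have h1 : seen G X v + (Q.card - 1) ≤ d := by
    rw [← hreg v, ← G.card_neighborFinset_eq_degree, ← Finset.card_erase_of_mem hv]
    unfold seen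
    rw [← Finset.card_union_of_disjoint]
    · refine Finset.card_le_card fun x hx => ?_
      rw [SimpleGraph.mem_neighborFinset]
      rcases Finset.mem_union.1 hx with h2 | h2
      · exact (Finset.mem_filter.1 h2).2
      · obtain ⟨h3, h4⟩ := Finset.mem_erase.1 h2
        exact hB.clique Q hQ v hv x h4 h3.symm
    · rw [Finset.disjoint_left]
      intro x h2 h3
      exact hX x (Finset.mem_filter.1 h2).1 (Finset.mem_erase.1 h3).2
  have h2 := hB.le_card Q hQ
  have h3 : 0 < Q.card := Finset.card_pos.2 ⟨v, hv⟩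
  have h4 : seen G X v + Q.card ≤ d + 1 := by omega
  have h5 : e * (seen G X v + Q.card) ≤ e * (d + 1) := Nat.mul_le_mul_left _ h4
  rw [Nat.mul_add] at h5
  omega

/-- Every vertex of a block has a neighbour outside of the block. -/
theorem Blocks.exists_bd (hB : Blocks G d e 𝒬) (hreg : G.IsRegularOfDegree d) {Q : Finset V}
    (hQ : Q ∈ 𝒬) {v : V} (hv : v ∈ Q) : ∃ x ∈ bd G Q, G.Adj v x := by
  by_contra hc
  push Not at hc
  have h1 : G.neighborFinset v ⊆ Q.erase v := by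
    intro x hx
    rw [SimpleGraph.mem_neighborFinset] at hx
    rcases hB.adj_mem hv hx with h2 | h2
    · exact Finset.mem_erase.2 ⟨hx.ne', h2⟩
    · exact absurd hx (hc x h2)
  have h2 := Finset.card_le_card h1
  rw [G.card_neighborFinset_eq_degree, hreg v, Finset.card_erase_of_mem hv] at h2
  have h3 := hB.card_le Q hQ
  have h4 : 0 < Q.card := Finset.card_pos.2 ⟨v, hv⟩
  omega

end Facts

end Pool.Agent.MP_a3e05c_co.Pins
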