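import Pool.Agent.Lib.MP_a3e05c_co.Pins.Add

set_option autoImplicit false

/-!
# MP_a3e05c_co, pins: blocks with a hub which does not see all of the block
-/

namespace Pool.Agent.MP_a3e05c_co.Pins

open Finset

variable {V : Type*} [Fintype V] [DecidableEq V] {G : SimpleGraph V} [DecidableRel G.Adj]
  {d : ℕ} {g c h : ℝ} {e f : ℕ} {𝒬 : Finset (Finset V)}

theorem Blocks.seen_le (hB : Blocks G d e 𝒬) (hreg : G.IsRegularOfDegree d) (he : 0 < e)
    {Q : Finset V} (hQ : Q ∈ 𝒬) {v : V} (hv : v ∈ Q) {X : Finset V} (hX : ∀ x ∈ X, x ∉ Q) :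
    (seen G X v : ℝ) ≤ d / e := by
  have h1 := hB.card_out hreg hQ hv hX
  rw [le_div_iff₀ (by exact_mod_cast he), mul_comm]
  exact_mod_cast h1

theorem case_alpha (hd : 0 < d) (hreg : G.IsRegularOfDegree d) (hh : 0 ≤ h) (hc : 0 ≤ c)
    (hf : 0 < f) (hef : 2 * f ≤ e) (hdf : 8 * f ≤ d) (hB : Blocks G d e 𝒬)
    {𝒜 : Finset (Finset V)} (h𝒜𝒬 : 𝒜 ⊆ 𝒬)
    (h𝒜 : ∀ Q ∈ 𝒜, ∃ x ∈ bd G Q, f * seen G Q x + d ≤ f * d) {r : ℕ} (hr : 0 < r) :
    ∃ D s, Gain G d g c h D s ∧ (1 / r : ℝ) * (𝒜.card * (c / (8 * f) -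
      (1 / r : ℝ) * (c / (8 * f) * (3 * d / e) + h))) ≤ s := by
  have he : 0 < e := by omega
  have hd' : (0 : ℝ) < d := by exact_mod_cast hd
  have he' : (0 : ℝ) < e := by exact_mod_cast he
  have hf' : (0 : ℝ) < f := by exact_mod_cast hf
  rcases 𝒜.eq_empty_or_nonempty with rfl | ⟨Q₀, hQ₀⟩
  · exact ⟨∅, 0, Gain.empty, by simp⟩
  have hV : Nonempty V := ⟨(h𝒜 Q₀ hQ₀).choose⟩
  choose! xp hxp using h𝒜
  have hy : ∀ Q ∈ 𝒜, ∃ y ∈ Q, G.Adj y (xp Q) := fun Q hQ => (mem_bd.1 (hxp Q hQ).1).2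
  choose! yp hyp using hy
  set Q' : Finset V → Finset V := fun Q => Q.filter fun v => ¬ G.Adj (xp Q) v with hQ'
  have hQ'card : ∀ Q ∈ 𝒜, d ≤ 2 * f * (Q' Q).card := by
    intro Q hQ
    have h1 := Finset.card_filter_add_card_filter_not (s := Q) (fun v => G.Adj (xp Q) v)
    have h2 : seen G Q (xp Q) + (Q' Q).card = Q.card := h1
    have h3 := (hxp Q hQ).2
    have h4 := hB.le_card Q (h𝒜𝒬 hQ)
    have h5 : e * d ≤ e * (2 * f * (Q' Q).card) := by
      have h6 : f * Q.card + d ≤ f * (Q' Q).card + f * d := by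
        rw [← h2, Nat.mul_add]
        omega
      have h7 : e * (f * Q.card + d) ≤ e * (f * (Q' Q).card + f * d) := Nat.mul_le_mul_left _ h6
      have h8 : f * (e * (d + 1)) ≤ f * (e * Q.card + d) := Nat.mul_le_mul_left _ h4
      have h9 : 2 * f * d ≤ e * d := Nat.mul_le_mul_right _ hef
      nlinarith
    exact Nat.le_of_mul_le_mul_left h5 he
  have hQ'pos : ∀ Q ∈ 𝒜, (0 : ℝ) < (Q' Q).card := by
    intro Q hQ
    have h1 := hQ'card Q hQ
    have h2 : 0 < (Q' Q).card := by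
      by_contra hc1
      have h3 : (Q' Q).card = 0 := by omega
      rw [h3] at h1
      omega
    exact_mod_cast h2
  set bad : Finset V → V → ℝ := fun Q y => if y = xp Q then 0 else
    (if G.Adj (yp Q) y then (1 : ℝ) else 0) +
      2 / (Q' Q).card * ∑ v ∈ Q' Q, (if G.Adj v y then (1 : ℝ) else 0) with hbad
  have hbad_nonneg : ∀ Q y, 0 ≤ bad Q y := by
    intro Q y
    simp only [hbad]
    split_ifs
    · exact le_rfl
    · positivity
    · positivity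
  have hXQ : ∀ Q ∈ 𝒜, ∀ x ∈ 𝒜.image xp, x ∉ Q := by
    intro Q hQ x hx
    obtain ⟨Q₂, hQ₂, rfl⟩ := Finset.mem_image.1 hx
    exact hB.bd_notMem (h𝒜𝒬 hQ₂) (h𝒜𝒬 hQ) (hxp Q₂ hQ₂).1
  refine blocks_gain hd hreg hh (by positivity) 𝒜 xp bad hbad_nonneg (by simp [hbad]) ?_ hr ?_
  · -- the sum of the conflicts
    intro Q hQ
    have h1 : ∀ y ∈ 𝒜.image xp, bad Q y ≤ (if G.Adj (yp Q) y then (1 : ℝ) else 0) +
        2 / (Q' Q).card * ∑ v ∈ Q' Q, (if G.Adj v y then (1 : ℝ) else 0) := by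
      intro y _
      simp only [hbad]
      split_ifs
      · positivity
      · positivity
      · exact le_rfl
      · exact le_rfl
    refine (Finset.sum_le_sum h1).trans ?_
    rw [Finset.sum_add_distrib, ← Finset.mul_sum, Finset.sum_comm, ← seen_eq_sum]
    have h2 : (seen G (𝒜.image xp) (yp Q) : ℝ) ≤ d / e :=
      hB.seen_le hreg he (h𝒜𝒬 hQ) (hyp Q hQ).1 (hXQ Q hQ)
    have h3 : ∑ v ∈ Q' Q, ∑ y ∈ 𝒜.image xp, (if G.Adj v y then (1 : ℝ) else 0) ≤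
        (Q' Q).card * (d / e) := by
      rw [← nsmul_eq_mul, ← Finset.sum_const]
      refine Finset.sum_le_sum fun v hv => ?_
      rw [← seen_eq_sum]
      exact hB.seen_le hreg he (h𝒜𝒬 hQ) (Finset.mem_filter.1 hv).1 (hXQ Q hQ)
    have h4 := mul_le_mul_of_nonneg_left h3 (by positivity : (0 : ℝ) ≤ 2 / (Q' Q).card)
    have h5 : 2 / ((Q' Q).card : ℝ) * ((Q' Q).card * (d / e)) = 2 * (d / e) := by
      have := (hQ'pos Q hQ).ne'
      field_simp
    rw [h5] at h4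
    have h6 : (3 * d / e : ℝ) = d / e + 2 * (d / e) := by ring
    rw [h6]
    exact add_le_add h2 h4
  · -- the extension
    intro P hP 𝒢 h𝒢 hgood s hs
    have hPQ : ∀ Q ∈ 𝒢, ∀ x ∈ P, x ∉ Q := fun Q hQ x hx => hXQ Q (h𝒢 hQ) x (hP hx)
    have hyP : ∀ Q ∈ 𝒢, ∀ p ∈ P, G.Adj (yp Q) p → p = xp Q := by
      intro Q hQ p hp hadj
      by_contra hne
      have h1 : bad Q p ≤ ∑ y ∈ P, bad Q y :=
        Finset.single_le_sum (fun y _ => hbad_nonneg Q y) hp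
      have h2 : 1 ≤ bad Q p := by
        simp only [hbad, if_neg hne, if_pos hadj]
        have : (0 : ℝ) ≤ 2 / (Q' Q).card * ∑ v ∈ Q' Q, (if G.Adj v p then (1 : ℝ) else 0) := by
          positivity
        linarith
      linarith [(hgood Q hQ).2]
    set U' : Finset V → Finset V := fun Q => (Q' Q).filter fun v => seen G P v = 0 with hU'
    have hU'card : ∀ Q ∈ 𝒢, (Q' Q).card < 2 * (U' Q).card := by
      intro Q hQ
      have h1 := Finset.card_filter_add_card_filter_not (s := Q' Q) (fun v => seen G P v = 0)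
      have h2 : (((Q' Q).filter fun v => ¬ seen G P v = 0).card : ℝ) ≤
          ∑ v ∈ Q' Q, ∑ y ∈ P, (if G.Adj v y then (1 : ℝ) else 0) := by
        rw [Finset.card_filter]
        push_cast
        refine Finset.sum_le_sum fun v _ => ?_
        rw [← seen_eq_sum]
        by_cases h3 : seen G P v = 0
        · simp [h3]
        · rw [if_pos h3]
          have : 1 ≤ seen G P v := Nat.one_le_iff_ne_zero.2 h3
          exact_mod_cast this
      have h3 : 2 / ((Q' Q).card : ℝ) * ∑ v ∈ Q' Q, ∑ y ∈ P, (if G.Adj v y then (1 : ℝ) else 0) ≤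
          ∑ y ∈ P, bad Q y := by
        rw [Finset.sum_comm, Finset.mul_sum]
        refine Finset.sum_le_sum fun y _ => ?_
        simp only [hbad]
        by_cases h4 : y = xp Q
        · rw [if_pos h4]
          have h5 : ∑ v ∈ Q' Q, (if G.Adj v y then (1 : ℝ) else 0) = 0 := by
            refine Finset.sum_eq_zero fun v hv => ?_
            rw [if_neg]
            intro h6
            refine (Finset.mem_filter.1 hv).2 ?_
            rw [← h4]
            exact h6.symm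
          rw [h5, mul_zero]
        · rw [if_neg h4]
          have : (0 : ℝ) ≤ if G.Adj (yp Q) y then (1 : ℝ) else 0 := by positivity
          linarith
      have hpos := hQ'pos Q (h𝒢 hQ)
      have h4 : 2 / ((Q' Q).card : ℝ) * ((Q' Q).filter fun v => ¬ seen G P v = 0).card < 1 :=
        lt_of_le_of_lt ((mul_le_mul_of_nonneg_left h2 (by positivity)).trans h3) (hgood Q hQ).2
      have h5 : 2 * (((Q' Q).filter fun v => ¬ seen G P v = 0).card : ℝ) < (Q' Q).card := by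
        rw [div_mul_eq_mul_div, div_lt_one hpos] at h4
        exact h4
      have h6 : 2 * ((Q' Q).filter fun v => ¬ seen G P v = 0).card < (Q' Q).card := by
        exact_mod_cast h5
      have h7 : (U' Q).card + ((Q' Q).filter fun v => ¬ seen G P v = 0).card = (Q' Q).card := h1
      omega
    have hzex : ∀ Q ∈ 𝒢, ∃ z, z ∈ U' Q := by
      intro Q hQ
      have h1 := hU'card Q hQ
      exact Finset.card_pos.1 (by omega)
    choose! zp hzp using hzex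
    -- memberships
    have hzQ : ∀ Q ∈ 𝒢, zp Q ∈ Q := fun Q hQ =>
      (Finset.mem_filter.1 (Finset.mem_filter.1 (hzp Q hQ)).1).1
    have hU'Q : ∀ Q, ∀ v ∈ U' Q, v ∈ Q := fun Q v hv =>
      (Finset.mem_filter.1 (Finset.mem_filter.1 hv).1).1
    have hsep : ∀ Q ∈ 𝒢, ∀ Q₂ ∈ 𝒢, Q ≠ Q₂ → ∀ v ∈ Q, ∀ w ∈ Q₂, v ≠ w ∧ ¬ G.Adj v w := by
      intro Q hQ Q₂ hQ₂ hne v hv w hw
      refine ⟨?_, fun h1 => hne (hB.sep Q (h𝒜𝒬 (h𝒢 hQ)) Q₂ (h𝒜𝒬 (h𝒢 hQ₂)) v hv w hw h1)⟩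
      rintro rfl
      exact hne (hB.disj Q (h𝒜𝒬 (h𝒢 hQ)) Q₂ (h𝒜𝒬 (h𝒢 hQ₂)) v hv hw)
    refine add_pins hd hc 𝒢 P zp yp (fun Q => (U' Q).erase (zp Q)) ?_ ?_ ?_ ?_ ?_ ?_ ?_ hs
    · intro Q hQ
      exact ⟨fun h1 => hPQ Q hQ _ h1 (hzQ Q hQ), (Finset.mem_filter.1 (hzp Q hQ)).2⟩
    · intro Q hQ Q₂ hQ₂ hne
      exact hsep Q hQ Q₂ hQ₂ hne _ (hzQ Q hQ) _ (hzQ Q₂ hQ₂)
    · intro Q hQ
      have hyQ := hyp Q (h𝒢 hQ)
      refine ⟨?_, fun h1 => hPQ Q hQ _ h1 hyQ.1, ?_⟩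
      · refine hB.clique Q (h𝒜𝒬 (h𝒢 hQ)) _ (hzQ Q hQ) _ hyQ.1 ?_
        intro h1
        have h2 := (Finset.mem_filter.1 (Finset.mem_filter.1 (hzp Q hQ)).1).2
        rw [h1] at h2
        exact h2 hyQ.2.symm
      · exact seen_eq_one (hgood Q hQ).1 hyQ.2 (fun q hq hadj => hyP Q hQ q hq hadj)
    · intro Q hQ Q₂ hQ₂ hne
      exact hsep Q hQ Q₂ hQ₂ hne _ (hyp Q (h𝒢 hQ)).1 _ (hzQ Q₂ hQ₂)
    · intro Q hQ v hv
      obtain ⟨h1, h2⟩ := Finset.mem_erase.1 hv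
      refine ⟨hB.clique Q (h𝒜𝒬 (h𝒢 hQ)) _ (hzQ Q hQ) _ (hU'Q Q v h2) h1.symm,
        fun h3 => hPQ Q hQ _ h3 (hU'Q Q v h2), (Finset.mem_filter.1 h2).2⟩
    · intro Q hQ Q₂ hQ₂ hne v hv
      exact hsep Q hQ Q₂ hQ₂ hne _ (hU'Q Q v (Finset.mem_erase.1 hv).2) _ (hzQ Q₂ hQ₂)
    · intro Q hQ
      have h1 : d ≤ 8 * f * ((U' Q).erase (zp Q)).card := by
        rw [Finset.card_erase_of_mem (hzp Q hQ)]
        have h2 := hU'card Q hQ
        have h3 := hQ'card Q (h𝒢 hQ)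
        obtain ⟨k, hk⟩ : ∃ k, (U' Q).card = k + 1 := ⟨(U' Q).card - 1, by omega⟩
        rw [hk] at h2 ⊢
        rw [Nat.add_sub_cancel]
        have h4 : 2 * f * (Q' Q).card ≤ 2 * f * (2 * (k + 1)) := Nat.mul_le_mul_left _ h2.le
        nlinarith
      have h2 : (d : ℝ) ≤ 8 * f * ((U' Q).erase (zp Q)).card := by exact_mod_cast h1
      have h3 : c / (8 * f) * d ≤ c / (8 * f) * (8 * f * ((U' Q).erase (zp Q)).card) :=
        mul_le_mul_of_nonneg_left h2 (by positivity)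
      refine h3.trans (le_of_eq ?_)
      field_simp

end Pool.Agent.MP_a3e05c_co.Pins
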