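import Pool.Agent.Lib.MP_a3e05c_co.Pins.Add

set_option autoImplicit false

/-!
# MP_a3e05c_co, pins: blocks all of whose outer neighbours see almost all of the block
-/

namespace Pool.Agent.MP_a3e05c_co.Pins

open Finset

variable {V : Type*} [Fintype V] [DecidableEq V] {G : SimpleGraph V} [DecidableRel G.Adj]
  {d : ℕ} {g c h : ℝ} {e f : ℕ} {𝒬 : Finset (Finset V)}

/-- A block all of whose outer neighbours see almost all of the block. -/
def Tight (G : SimpleGraph V) [DecidableRel G.Adj] (d f : ℕ) (Q : Finset V) : Prop :=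
  ∀ x ∈ bd G Q, f * d < f * seen G Q x + d

omit [DecidableEq V] in
theorem seen_add_le (hreg : G.IsRegularOfDegree d) {Q Q' : Finset V}
    (hdis : Disjoint Q Q') (x : V) : seen G Q x + seen G Q' x ≤ d := by
  classical
  rw [← hreg x, ← G.card_neighborFinset_eq_degree]
  unfold seen
  rw [← Finset.card_union_of_disjoint (Finset.disjoint_filter_filter hdis)]
  refine Finset.card_le_card fun y hy => ?_
  rw [SimpleGraph.mem_neighborFinset]
  rcases Finset.mem_union.1 hy with h | h <;> exact (Finset.mem_filter.1 h).2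

theorem Tight.bd_disjoint (hreg : G.IsRegularOfDegree d) (hf : 2 ≤ f) (_ : 0 < d)
    (hB : Blocks G d e 𝒬) {Q Q' : Finset V} (hQ : Q ∈ 𝒬) (hQ' : Q' ∈ 𝒬) (hT : Tight G d f Q)
    (hT' : Tight G d f Q') (hne : Q ≠ Q') {x : V} (hx : x ∈ bd G Q) : x ∉ bd G Q' := by
  intro hx'
  have h1 : Disjoint Q Q' := by
    rw [Finset.disjoint_left]
    intro v hv hv'
    exact hne (hB.disj Q hQ Q' hQ' v hv hv')
  have h2 := seen_add_le hreg h1 x
  have h3 := hT x hx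
  have h4 := hT' x hx'
  have h5 : f * (seen G Q x + seen G Q' x) ≤ f * d := Nat.mul_le_mul_left _ h2
  have h6 : 2 * d ≤ f * d := Nat.mul_le_mul_right _ hf
  rw [Nat.mul_add] at h5
  omega

theorem Tight.card_bd (hreg : G.IsRegularOfDegree d) (hf : 2 ≤ f) (hd : 0 < d)
    (hB : Blocks G d e 𝒬) {Q : Finset V} (hQ : Q ∈ 𝒬) (hT : Tight G d f Q) :
    e * (bd G Q).card ≤ 2 * d := by
  have h1 : ∑ x ∈ bd G Q, seen G Q x = ∑ v ∈ Q, seen G (bd G Q) v := by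
    unfold seen
    simp_rw [Finset.card_filter]
    rw [Finset.sum_comm]
    simp_rw [G.adj_comm]
  have h2 : e * ∑ v ∈ Q, seen G (bd G Q) v ≤ d * d := by
    rw [Finset.mul_sum]
    calc ∑ v ∈ Q, e * seen G (bd G Q) v ≤ ∑ v ∈ Q, d :=
          Finset.sum_le_sum fun v hv => hB.card_out hreg hQ hv fun x hx => (mem_bd.1 hx).1
      _ = Q.card * d := by rw [Finset.sum_const, smul_eq_mul]
      _ ≤ d * d := Nat.mul_le_mul_right _ (hB.card_le Q hQ)
  have h3 : (bd G Q).card * (f * d) ≤ f * ∑ x ∈ bd G Q, seen G Q x + (bd G Q).card * d := by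
    rw [Finset.mul_sum]
    calc (bd G Q).card * (f * d) = ∑ x ∈ bd G Q, f * d := by
          rw [Finset.sum_const, smul_eq_mul]
      _ ≤ ∑ x ∈ bd G Q, (f * seen G Q x + d) := Finset.sum_le_sum fun x hx => (hT x hx).le
      _ = ∑ x ∈ bd G Q, f * seen G Q x + (bd G Q).card * d := by
          rw [Finset.sum_add_distrib, Finset.sum_const, smul_eq_mul]
  rw [h1] at h3
  set b := (bd G Q).card
  set S := ∑ v ∈ Q, seen G (bd G Q) v
  have h4 : e * (b * (f * d)) ≤ f * (d * d) + e * b * d := by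
    have := Nat.mul_le_mul_left e h3
    have h5 := Nat.mul_le_mul_left f h2
    nlinarith
  -- divide by d
  have h5 : (e * b * f) * d ≤ (f * d + e * b) * d := by nlinarith
  have h6 : e * b * f ≤ f * d + e * b := Nat.le_of_mul_le_mul_right h5 hd
  obtain ⟨k, rfl⟩ : ∃ k, f = k + 2 := ⟨f - 2, by omega⟩
  have h7 : (e * b) * (k + 1) ≤ (2 * d) * (k + 1) := by nlinarith
  exact Nat.le_of_mul_le_mul_right h7 (by omega)

/-- Two non-adjacent vertices near a block. -/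
theorem Blocks.exists_pair (hB : Blocks G d e 𝒬) (hreg : G.IsRegularOfDegree d) (he : 2 ≤ e)
    (hfree : ∀ Q : Finset V, Q.card = d + 1 → ¬ ∀ v ∈ Q, ∀ w ∈ Q, v ≠ w → G.Adj v w)
    {Q : Finset V} (hQ : Q ∈ 𝒬) :
    ∃ p ∈ bd G Q, ∃ p', (p' ∈ Q ∨ p' ∈ bd G Q) ∧ p ≠ p' ∧ ¬ G.Adj p p' := by
  by_contra hc
  push Not at hc
  have hall : ∀ v ∈ Q ∪ bd G Q, ∀ w ∈ Q ∪ bd G Q, v ≠ w → G.Adj v w := by
    intro v hv w hw hne
    rw [Finset.mem_union] at hv hw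
    rcases hv with hv | hv
    · rcases hw with hw | hw
      · exact hB.clique Q hQ v hv w hw hne
      · exact (hc w hw v (Or.inl hv) hne.symm).symm
    · exact hc v hv w hw hne
  have hpos : 0 < Q.card := by
    have h1 := hB.le_card Q hQ
    by_contra h2
    have h3 : Q.card = 0 := by omega
    rw [h3] at h1
    nlinarith
  obtain ⟨v, hv⟩ := Finset.card_pos.1 hpos
  refine hfree (Q ∪ bd G Q) ?_ hall
  have h1 : Q ∪ bd G Q = insert v (G.neighborFinset v) := by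
    ext w
    rw [Finset.mem_insert, SimpleGraph.mem_neighborFinset]
    constructor
    · intro hw
      by_cases h2 : w = v
      · exact Or.inl h2
      · exact Or.inr (hall v (Finset.mem_union_left _ hv) w hw (Ne.symm h2))
    · rintro (rfl | h2)
      · exact Finset.mem_union_left _ hv
      · exact Finset.mem_union.2 (hB.adj_mem hv h2)
  rw [h1, Finset.card_insert_of_notMem (by simp), G.card_neighborFinset_eq_degree, hreg v]

/-- Vertices of different tight blocks: the general separation. -/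
theorem Tight.sep (hreg : G.IsRegularOfDegree d) (hf : 2 ≤ f) (hd : 0 < d)
    (hB : Blocks G d e 𝒬) {Q Q' : Finset V} (hQ : Q ∈ 𝒬) (hQ' : Q' ∈ 𝒬) (hT : Tight G d f Q)
    (hT' : Tight G d f Q') (hne : Q ≠ Q') {v w : V} (hv : v ∈ Q) (hw : w ∈ Q' ∨ w ∈ bd G Q') :
    v ≠ w ∧ ¬ G.Adj v w := by
  rcases hw with hw | hw
  · refine ⟨?_, fun h1 => hne (hB.sep Q hQ Q' hQ' v hv w hw h1)⟩
    rintro rfl
    exact hne (hB.disj Q hQ Q' hQ' v hv hw)
  · have h1 : w ∉ Q := hB.bd_notMem hQ' hQ hw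
    refine ⟨?_, fun h2 => ?_⟩
    · rintro rfl
      exact h1 hv
    · exact Tight.bd_disjoint hreg hf hd hB hQ hQ' hT hT' hne (mem_bd.2 ⟨h1, v, hv, h2⟩) hw

section Unlinked

/-- Blocks with independent pairs: each gives a good step. -/
theorem case_unlinked (hd : 0 < d) (hreg : G.IsRegularOfDegree d) (hf : 2 ≤ f) (he : 2 ≤ e)
    (hB : Blocks G d e 𝒬)
    {𝒰 : Finset (Finset V)} (h𝒰 : ∀ Q ∈ 𝒰, Q ∈ 𝒬 ∧ Tight G d f Q)
    (p p' : Finset V → V) (hp : ∀ Q ∈ 𝒰, p Q ∈ bd G Q) (hp' : ∀ Q ∈ 𝒰, p' Q ∈ Q ∨ p' Q ∈ bd G Q)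
    (hpp : ∀ Q ∈ 𝒰, p Q ≠ p' Q ∧ ¬ G.Adj (p Q) (p' Q))
    (hunl : ∀ Q ∈ 𝒰, ∀ Q' ∈ 𝒰, Q ≠ Q' → ∀ x, (x = p Q ∨ x = p' Q) → x ∈ bd G Q →
      ∀ x', (x' = p Q' ∨ x' = p' Q') → x' ∈ bd G Q' → ¬ G.Adj x x') :
    ∃ D, Gain G d g c h D (𝒰.card * g) := by
  -- the pins of different blocks
  have hsep : ∀ Q ∈ 𝒰, ∀ Q' ∈ 𝒰, Q ≠ Q' → ∀ x, (x = p Q ∨ x = p' Q) →
      ∀ x', (x' = p Q' ∨ x' = p' Q') → x ≠ x' ∧ ¬ G.Adj x x' := by
    intro Q hQ Q' hQ' hne x hx x' hx'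
    have h1 : x ∈ Q ∨ x ∈ bd G Q := by
      rcases hx with rfl | rfl
      · exact Or.inr (hp Q hQ)
      · exact hp' Q hQ
    have h2 : x' ∈ Q' ∨ x' ∈ bd G Q' := by
      rcases hx' with rfl | rfl
      · exact Or.inr (hp Q' hQ')
      · exact hp' Q' hQ'
    rcases h1 with h1 | h1
    · exact Tight.sep hreg hf hd hB (h𝒰 Q hQ).1 (h𝒰 Q' hQ').1 (h𝒰 Q hQ).2 (h𝒰 Q' hQ').2 hne h1 h2
    · rcases h2 with h2 | h2
      · have h3 := Tight.sep hreg hf hd hB (h𝒰 Q' hQ').1 (h𝒰 Q hQ).1 (h𝒰 Q' hQ').2 (h𝒰 Q hQ).2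
          hne.symm h2 (Or.inr h1)
        exact ⟨h3.1.symm, fun h4 => h3.2 h4.symm⟩
      · refine ⟨?_, hunl Q hQ Q' hQ' hne x hx h1 x' hx' h2⟩
        rintro rfl
        exact Tight.bd_disjoint hreg hf hd hB (h𝒰 Q hQ).1 (h𝒰 Q' hQ').1 (h𝒰 Q hQ).2
          (h𝒰 Q' hQ').2 hne h1 h2
  have key : ∀ 𝒱 ⊆ 𝒰, Gain G d g c h (𝒱.image p ∪ 𝒱.image p') (𝒱.card * g) := by
    intro 𝒱
    induction 𝒱 using Finset.induction_on with
    | empty =>
      intro _
      simpa using (Gain.empty : Gain G d g c h ∅ 0)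
    | insert Q 𝒱 hQ𝒱 ih =>
      intro hsub
      have hQ : Q ∈ 𝒰 := hsub (Finset.mem_insert_self _ _)
      have hsub' : ∀ Q' ∈ 𝒱, Q' ∈ 𝒰 := fun Q' hQ' => hsub (Finset.mem_insert_of_mem hQ')
      have ih' := ih fun j hj => hsub' j hj
      have hne : ∀ Q' ∈ 𝒱, Q ≠ Q' := fun Q' hQ' h1 => hQ𝒱 (h1 ▸ hQ')
      set D := 𝒱.image p ∪ 𝒱.image p' with hD
      have hmem : ∀ x ∈ D, ∃ Q' ∈ 𝒱, x = p Q' ∨ x = p' Q' := by
        intro x hx
        rw [hD, Finset.mem_union, Finset.mem_image, Finset.mem_image] at hx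
        rcases hx with ⟨Q', hQ', h1⟩ | ⟨Q', hQ', h1⟩
        · exact ⟨Q', hQ', Or.inl h1.symm⟩
        · exact ⟨Q', hQ', Or.inr h1.symm⟩
      have hfreeD : ∀ x, (x = p Q ∨ x = p' Q) → x ∉ D ∧ ∀ y ∈ D, ¬ G.Adj x y := by
        intro x hx
        constructor
        · intro h1
          obtain ⟨Q', hQ', h2⟩ := hmem x h1
          exact (hsep Q hQ Q' (hsub' Q' hQ') (hne Q' hQ') x hx x h2).1 rfl
        · intro y hy
          obtain ⟨Q', hQ', h2⟩ := hmem y hy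
          exact (hsep Q hQ Q' (hsub' Q' hQ') (hne Q' hQ') x hx y h2).2
      have hinQ : ∀ v ∈ Q, v ∉ D ∧ ∀ y ∈ D, ¬ G.Adj v y := by
        intro v hv
        have h0 : ∀ y ∈ D, v ≠ y ∧ ¬ G.Adj v y := by
          intro y hy
          obtain ⟨Q', hQ', h2⟩ := hmem y hy
          refine Tight.sep hreg hf hd hB (h𝒰 Q hQ).1 (h𝒰 Q' (hsub' Q' hQ')).1 (h𝒰 Q hQ).2
            (h𝒰 Q' (hsub' Q' hQ')).2 (hne Q' hQ') hv ?_
          rcases h2 with rfl | rfl
          · exact Or.inr (hp Q' (hsub' Q' hQ'))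
          · exact hp' Q' (hsub' Q' hQ')
        exact ⟨fun h1 => (h0 v h1).1 rfl, fun y hy => (h0 y hy).2⟩
      obtain ⟨hpD, hpa⟩ := hfreeD (p Q) (Or.inl rfl)
      obtain ⟨hpD', hpa'⟩ := hfreeD (p' Q) (Or.inr rfl)
      have hs0 : seen G D (p Q) = 0 := seen_eq_zero_iff.2 hpa
      have hs0' : seen G D (p' Q) = 0 := seen_eq_zero_iff.2 hpa'
      -- first pin
      have h1 := ih'.hub hpD
      rw [hs0] at h1
      simp only [Nat.cast_zero, mul_zero, zero_div, sub_zero] at h1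
      -- second pin
      set D₁ := insert (p Q) D with hD₁
      have h2 : p' Q ∉ D₁ := by
        rw [hD₁, Finset.mem_insert]
        rintro (h3 | h3)
        · exact (hpp Q hQ).1 h3.symm
        · exact hpD' h3
      have h3 : seen G D₁ (p' Q) = 0 := by
        rw [hD₁, seen_insert hpD, hs0', if_neg fun h4 => (hpp Q hQ).2 h4.symm]
      have hseenQ : ∀ v ∈ Q, seen G D₁ v = if G.Adj v (p Q) then 1 else 0 := by
        intro v hv
        rw [hD₁, seen_insert hpD, seen_eq_zero_iff.2 (hinQ v hv).2, Nat.zero_add]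
      have hTQ := (h𝒰 Q hQ).2
      -- a common neighbour
      obtain ⟨v, hvQ, hv1, hv2⟩ : ∃ v ∈ Q, G.Adj v (p Q) ∧ G.Adj (p' Q) v := by
        rcases hp' Q hQ with h4 | h4
        · obtain ⟨-, v, hv, hva⟩ := mem_bd.1 (hp Q hQ)
          refine ⟨v, hv, hva, hB.clique Q (h𝒰 Q hQ).1 _ h4 v hv ?_⟩
          rintro h5
          rw [← h5] at hva
          exact (hpp Q hQ).2 hva.symm
        · by_contra hc
          push Not at hc
          have h5 : Disjoint (Q.filter fun v => G.Adj (p Q) v)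
              (Q.filter fun v => G.Adj (p' Q) v) := by
            rw [Finset.disjoint_left]
            intro v hv hv'
            exact hc v (Finset.mem_filter.1 hv).1 (Finset.mem_filter.1 hv).2.symm
              (Finset.mem_filter.1 hv').2
          have h6 : seen G Q (p Q) + seen G Q (p' Q) ≤ Q.card := by
            unfold seen
            rw [← Finset.card_union_of_disjoint h5]
            exact Finset.card_le_card (Finset.union_subset (Finset.filter_subset _ _)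
              (Finset.filter_subset _ _))
          have h7 := hTQ _ (hp Q hQ)
          have h8 := hTQ _ h4
          have h9 : f * (seen G Q (p Q) + seen G Q (p' Q)) ≤ f * d :=
            Nat.mul_le_mul_left _ (h6.trans (hB.card_le Q (h𝒰 Q hQ).1))
          have h10 : 2 * d ≤ f * d := Nat.mul_le_mul_right _ hf
          rw [Nat.mul_add] at h9
          omega
      have h4 : 1 ≤ nb1 G D₁ (p' Q) := by
        unfold nb1
        rw [Nat.one_le_iff_ne_zero, ← Nat.pos_iff_ne_zero, Finset.card_pos]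
        refine ⟨v, Finset.mem_filter.2 ⟨Finset.mem_univ _, hv2, ?_, ?_⟩⟩
        · rw [hD₁, Finset.mem_insert]
          rintro (h5 | h5)
          · exact (mem_bd.1 (hp Q hQ)).1 (h5 ▸ hvQ)
          · exact (hinQ v hvQ).1 h5
        · rw [hseenQ v hvQ, if_pos hv1]
      have h5 : 2 * nb2 G D₁ (p' Q) ≤ d := by
        have h6 : nb2 G D₁ (p' Q) ≤ seen G Qᶜ (p' Q) := by
          unfold nb2 seen
          refine Finset.card_le_card fun w hw => ?_
          obtain ⟨-, hw1, -, hw3⟩ := Finset.mem_filter.1 hw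
          refine Finset.mem_filter.2 ⟨?_, hw1⟩
          rw [Finset.mem_compl]
          intro hwQ
          have hw4 : 2 ≤ seen G D₁ w := hw3
          rw [hseenQ w hwQ] at hw4
          split_ifs at hw4 <;> omega
        rcases hp' Q hQ with h7 | h7
        · have h8 := hB.card_out hreg (h𝒰 Q hQ).1 h7 (X := Qᶜ) fun x hx =>
            Finset.mem_compl.1 hx
          have h9 : 2 * seen G Qᶜ (p' Q) ≤ e * seen G Qᶜ (p' Q) := Nat.mul_le_mul_right _ he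
          omega
        · have h8 := hTQ _ h7
          have h9 := seen_add_le hreg (disjoint_compl_right (a := Q)) (p' Q)
          have h10 : f * (seen G Q (p' Q) + seen G Qᶜ (p' Q)) ≤ f * d :=
            Nat.mul_le_mul_left _ h9
          have h11 : 2 * seen G Qᶜ (p' Q) ≤ f * seen G Qᶜ (p' Q) := Nat.mul_le_mul_right _ hf
          rw [Nat.mul_add] at h10
          omega
      have h6 := h1.good h2 h3 h4 h5
      rw [Finset.image_insert, Finset.image_insert, Finset.card_insert_of_notMem hQ𝒱]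
      have h7 : insert (p Q) (𝒱.image p) ∪ insert (p' Q) (𝒱.image p') =
          insert (p' Q) (insert (p Q) D) := by
        rw [hD, Finset.insert_union, Finset.union_insert, Finset.insert_comm]
      rw [h7]
      refine h6.weaken (le_of_eq ?_)
      push_cast
      ring
  exact ⟨_, key 𝒰 Finset.Subset.rfl⟩

end Unlinked

section Linked

/-- Blocks whose boundary is adjacent to the boundary of another tight block. -/
theorem case_linked (hd : 0 < d) (hreg : G.IsRegularOfDegree d) (hh : 0 ≤ h) (hc : 0 ≤ c)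
    (hf : 2 ≤ f) (he : 2 ≤ e) (hB : Blocks G d e 𝒬)
    {ℒ : Finset (Finset V)} (hℒ : ∀ Q ∈ ℒ, Q ∈ 𝒬 ∧ Tight G d f Q)
    (hlink : ∀ Q ∈ ℒ, ∃ x ∈ bd G Q, ∃ Q₂ ∈ 𝒬, Tight G d f Q₂ ∧ Q₂ ≠ Q ∧ ∃ x' ∈ bd G Q₂,
      G.Adj x x') {r : ℕ} (hr : 0 < r) :
    ∃ D s, Gain G d g c h D s ∧ (1 / r : ℝ) * (ℒ.card * (c / 2 -
      (1 / r : ℝ) * (c / 2 * (d / f + 2 * d / e) + h))) ≤ s := by
  have hd' : (0 : ℝ) < d := by exact_mod_cast hd
  have he' : (0 : ℝ) < e := by exact_mod_cast (by omega : 0 < e)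
  have hf' : (0 : ℝ) < f := by exact_mod_cast (by omega : 0 < f)
  rcases ℒ.eq_empty_or_nonempty with rfl | ⟨Q₀, hQ₀⟩
  · exact ⟨∅, 0, Gain.empty, by simp⟩
  have hV : Nonempty V := ⟨(hlink Q₀ hQ₀).choose⟩
  choose! xq hxq Q₂ hQ₂ hT₂ hne₂ xp hxp hadj using hlink
  have hy : ∀ Q ∈ ℒ, ∃ y ∈ Q, G.Adj y (xq Q) := fun Q hQ => (mem_bd.1 (hxq Q hQ)).2
  choose! yq hyq using hy
  set bad : Finset V → V → ℝ := fun Q y => if y = xp Q then 0 else
    (if G.Adj (xq Q) y then (1 : ℝ) else 0) + (if y ∈ bd G Q then (1 : ℝ) else 0) with hbad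
  have hbad_nonneg : ∀ Q y, 0 ≤ bad Q y := by
    intro Q y
    simp only [hbad]
    split_ifs <;> norm_num
  have hXQ : ∀ Q ∈ ℒ, ∀ x ∈ ℒ.image xp, x ∉ Q := by
    intro Q hQ x hx
    obtain ⟨Q₃, hQ₃, rfl⟩ := Finset.mem_image.1 hx
    exact hB.bd_notMem (hQ₂ Q₃ hQ₃) (hℒ Q hQ).1 (hxp Q₃ hQ₃)
  have hxpbd : ∀ Q ∈ ℒ, xp Q ∉ bd G Q := by
    intro Q hQ
    exact Tight.bd_disjoint hreg hf hd hB (hQ₂ Q hQ) (hℒ Q hQ).1 (hT₂ Q hQ) (hℒ Q hQ).2
      (hne₂ Q hQ) (hxp Q hQ)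
  refine blocks_gain hd hreg hh (by positivity) ℒ xp bad hbad_nonneg (by simp [hbad]) ?_ hr ?_
  · intro Q hQ
    have h1 : ∀ y ∈ ℒ.image xp, bad Q y ≤ (if G.Adj (xq Q) y then (1 : ℝ) else 0) +
        (if y ∈ bd G Q then (1 : ℝ) else 0) := by
      intro y _
      simp only [hbad]
      split_ifs <;> norm_num
    refine (Finset.sum_le_sum h1).trans ?_
    rw [Finset.sum_add_distrib, ← seen_eq_sum]
    have h2 : (seen G (ℒ.image xp) (xq Q) : ℝ) ≤ d / f := by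
      have h3 : Disjoint Q (ℒ.image xp) := by
        rw [Finset.disjoint_left]
        intro v hv hv'
        exact hXQ Q hQ v hv' hv
      have h4 := seen_add_le hreg h3 (xq Q)
      have h5 := (hℒ Q hQ).2 _ (hxq Q hQ)
      have h6 : f * (seen G Q (xq Q) + seen G (ℒ.image xp) (xq Q)) ≤ f * d :=
        Nat.mul_le_mul_left _ h4
      rw [Nat.mul_add] at h6
      have h7 : f * seen G (ℒ.image xp) (xq Q) ≤ d := by omega
      rw [le_div_iff₀ hf', mul_comm]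
      exact_mod_cast h7
    have h3 : ∑ y ∈ ℒ.image xp, (if y ∈ bd G Q then (1 : ℝ) else 0) ≤ 2 * d / e := by
      have h4 : ∑ y ∈ ℒ.image xp, (if y ∈ bd G Q then (1 : ℝ) else 0) ≤ (bd G Q).card := by
        rw [← Finset.sum_filter, Finset.sum_const, nsmul_eq_mul, mul_one]
        exact_mod_cast Finset.card_le_card fun y hy => (Finset.mem_filter.1 hy).2
      have h5 := Tight.card_bd hreg hf hd hB (hℒ Q hQ).1 (hℒ Q hQ).2
      refine h4.trans ?_
      rw [le_div_iff₀ he', mul_comm]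
      exact_mod_cast h5
    exact add_le_add h2 h3
  · intro P hP 𝒢 h𝒢 hgood s hs
    have hPQ : ∀ Q ∈ 𝒢, ∀ x ∈ P, x ∉ Q := fun Q hQ x hx => hXQ Q (h𝒢 hQ) x (hP hx)
    have hbadlt : ∀ Q ∈ 𝒢, ∀ y ∈ P, bad Q y < 1 := fun Q hQ y hy =>
      lt_of_le_of_lt (Finset.single_le_sum (fun y _ => hbad_nonneg Q y) hy) (hgood Q hQ).2
    have hxP : ∀ Q ∈ 𝒢, ∀ y ∈ P, G.Adj (xq Q) y → y = xp Q := by
      intro Q hQ y hy hadj
      by_contra hne
      have h1 := hbadlt Q hQ y hy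
      simp only [hbad, if_neg hne, if_pos hadj] at h1
      split_ifs at h1 <;> norm_num at h1
    have hbdP : ∀ Q ∈ 𝒢, ∀ y ∈ P, y ∉ bd G Q := by
      intro Q hQ y hy hyb
      have hne : y ≠ xp Q := by
        rintro rfl
        exact hxpbd Q (h𝒢 hQ) hyb
      have h1 := hbadlt Q hQ y hy
      simp only [hbad, if_neg hne, if_pos hyb] at h1
      split_ifs at h1 <;> norm_num at h1
    have hQseen : ∀ Q ∈ 𝒢, ∀ v ∈ Q, seen G P v = 0 := by
      intro Q hQ v hv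
      rw [seen_eq_zero_iff]
      intro y hy hadj
      rcases hB.adj_mem hv hadj with h1 | h1
      · exact hPQ Q hQ y hy h1
      · exact hbdP Q hQ y hy h1
    have hsep : ∀ Q ∈ 𝒢, ∀ Q₃ ∈ 𝒢, Q ≠ Q₃ → ∀ v ∈ Q, ∀ w, (w ∈ Q₃ ∨ w ∈ bd G Q₃) →
        v ≠ w ∧ ¬ G.Adj v w := by
      intro Q hQ Q₃ hQ₃ hne v hv w hw
      exact Tight.sep hreg hf hd hB (hℒ Q (h𝒢 hQ)).1 (hℒ Q₃ (h𝒢 hQ₃)).1 (hℒ Q (h𝒢 hQ)).2
        (hℒ Q₃ (h𝒢 hQ₃)).2 hne hv hw
    refine add_pins hd hc 𝒢 P yq xq (fun Q => Q.erase (yq Q)) ?_ ?_ ?_ ?_ ?_ ?_ ?_ hs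
    · intro Q hQ
      exact ⟨fun h1 => hPQ Q hQ _ h1 (hyq Q (h𝒢 hQ)).1, hQseen Q hQ _ (hyq Q (h𝒢 hQ)).1⟩
    · intro Q hQ Q₃ hQ₃ hne
      exact hsep Q hQ Q₃ hQ₃ hne _ (hyq Q (h𝒢 hQ)).1 _ (Or.inl (hyq Q₃ (h𝒢 hQ₃)).1)
    · intro Q hQ
      refine ⟨(hyq Q (h𝒢 hQ)).2, fun h1 => hbdP Q hQ _ h1 (hxq Q (h𝒢 hQ)), ?_⟩
      exact seen_eq_one (hgood Q hQ).1 (hadj Q (h𝒢 hQ)) fun q hq hqa => hxP Q hQ q hq hqa
    · intro Q hQ Q₃ hQ₃ hne
      have h1 := hsep Q₃ hQ₃ Q hQ hne.symm _ (hyq Q₃ (h𝒢 hQ₃)).1 _ (Or.inr (hxq Q (h𝒢 hQ)))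
      exact ⟨h1.1.symm, fun h2 => h1.2 h2.symm⟩
    · intro Q hQ v hv
      obtain ⟨h1, h2⟩ := Finset.mem_erase.1 hv
      exact ⟨hB.clique Q (hℒ Q (h𝒢 hQ)).1 _ (hyq Q (h𝒢 hQ)).1 _ h2 h1.symm,
        fun h3 => hPQ Q hQ _ h3 h2, hQseen Q hQ v h2⟩
    · intro Q hQ Q₃ hQ₃ hne v hv
      exact hsep Q hQ Q₃ hQ₃ hne _ (Finset.mem_erase.1 hv).2 _ (Or.inl (hyq Q₃ (h𝒢 hQ₃)).1)
    · intro Q hQ
      rw [Finset.card_erase_of_mem (hyq Q (h𝒢 hQ)).1]
      have h1 := hB.le_card Q (hℒ Q (h𝒢 hQ)).1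
      have h2 : 0 < Q.card := Finset.card_pos.2 ⟨_, (hyq Q (h𝒢 hQ)).1⟩
      obtain ⟨k, hk⟩ : ∃ k, Q.card = k + 1 := ⟨Q.card - 1, by omega⟩
      rw [hk] at h1 ⊢
      rw [Nat.add_sub_cancel]
      have h3 : d ≤ 2 * k := by
        have h4 : e * d ≤ e * k + d := by nlinarith
        have h5 : 2 * d ≤ e * d := Nat.mul_le_mul_right _ he
        have h6 : e * d ≤ e * (2 * k) := by nlinarith
        exact Nat.le_of_mul_le_mul_left h6 (by omega)
      have h4 : (d : ℝ) ≤ 2 * k := by exact_mod_cast h3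
      nlinarith [mul_le_mul_of_nonneg_left h4 hc]

end Linked

end Pool.Agent.MP_a3e05c_co.Pins
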