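import Mathlib

set_option autoImplicit false

/-!
# MP_a3e05c_co, pins: the rules of the pinning process

`G` is a `d`-regular graph, `D` a set of pinned vertices. `seen G D v` is the number of pins
adjacent to `v`. `Gain G d g c h D s` says that `D` can be built by adding one vertex after the
other in such a way that the sum of the gains given by the rules is at least `s`.
-/

namespace Pool.Agent.MP_a3e05c_co.Pins

variable {V : Type*} [Fintype V] [DecidableEq V] (G : SimpleGraph V) [DecidableRel G.Adj]

/-- The number of pins adjacent to `v`. -/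
def seen (D : Finset V) (v : V) : ℕ := (D.filter fun p => G.Adj v p).card

/-- The number of neighbours of `z`, not pinned, not seen by any pin. -/
def nb0 (D : Finset V) (z : V) : ℕ :=
  (Finset.univ.filter fun v => G.Adj z v ∧ v ∉ D ∧ seen G D v = 0).card

/-- The number of neighbours of `z`, not pinned, seen by exactly one pin. -/
def nb1 (D : Finset V) (z : V) : ℕ :=
  (Finset.univ.filter fun v => G.Adj z v ∧ v ∉ D ∧ seen G D v = 1).card

/-- The number of neighbours of `z`, not pinned, seen by at least two pins. -/
def nb2 (D : Finset V) (z : V) : ℕ :=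
  (Finset.univ.filter fun v => G.Adj z v ∧ v ∉ D ∧ 2 ≤ seen G D v).card

/-- The rules of the pinning process. -/
inductive Gain (d : ℕ) (g c h : ℝ) : Finset V → ℝ → Prop
  | empty : Gain d g c h ∅ 0
  | weaken {D : Finset V} {s s' : ℝ} : Gain d g c h D s → s' ≤ s → Gain d g c h D s'
  | good {D : Finset V} {s : ℝ} {z : V} : Gain d g c h D s → z ∉ D → seen G D z = 0 →
      1 ≤ nb1 G D z → 2 * nb2 G D z ≤ d → Gain d g c h (insert z D) (s + g)
  | full {D : Finset V} {s : ℝ} {z : V} : Gain d g c h D s → z ∉ D → seen G D z = 0 →
      1 ≤ nb1 G D z → Gain d g c h (insert z D) (s + c * nb0 G D z / d)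
  | hub {D : Finset V} {s : ℝ} {z : V} : Gain d g c h D s → z ∉ D →
      Gain d g c h (insert z D) (s - h * seen G D z / d)

end Pool.Agent.MP_a3e05c_co.Pins
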