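import Pool.Agent.Lib.MP_a3e05c_co.Pins.StuckB
import Pool.Agent.Lib.MP_a3e05c_co.Pins.Alpha
import Pool.Agent.Lib.MP_a3e05c_co.Pins.Beta

set_option autoImplicit false

/-!
# MP_a3e05c_co, pins: in a regular graph of large degree without complete components the pinning
process gives an arbitrarily large multiple of `n / d ^ 2`
-/

namespace Pool.Agent.MP_a3e05c_co.Pins

open Finset

theorem div_bounds {d l : ℕ} (hl : 0 < l) (hd : l ≤ d) :
    0 < d / l ∧ ((l : ℝ) / d ≤ 1 / ((d / l : ℕ) : ℝ)) ∧ (1 / ((d / l : ℕ) : ℝ) ≤ 2 * l / d) := by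
  have h1 : 0 < d / l := Nat.div_pos hd hl
  have hd0 : 0 < d := lt_of_lt_of_le hl hd
  have h2 : d / l * l ≤ d := Nat.div_mul_le_self d l
  have h3 : d < (d / l + 1) * l := by
    have := Nat.lt_div_mul_add hl (a := d)
    rw [Nat.add_mul, Nat.one_mul]
    exact this
  have h4 : d ≤ 2 * l * (d / l) := by nlinarith
  have h1' : (0 : ℝ) < ((d / l : ℕ) : ℝ) := by exact_mod_cast h1
  have hd' : (0 : ℝ) < d := by exact_mod_cast hd0
  refine ⟨h1, ?_, ?_⟩
  · rw [div_le_div_iff₀ hd' h1', one_mul, mul_comm]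
    exact_mod_cast h2
  · rw [div_le_div_iff₀ h1' hd', one_mul]
    exact_mod_cast h4

theorem class_bound {d l r : ℕ} {G₀ B h N s : ℝ} (_ : 0 < d)
    (hN : 0 ≤ N) (hr1 : (l : ℝ) / d ≤ 1 / (r : ℝ)) (hr2 : 1 / (r : ℝ) ≤ 2 * l / d)
    (hB : 0 ≤ G₀ * B + h) (hsmall : 2 * l / d * (G₀ * B + h) ≤ G₀ / 2) (hG₀ : 0 ≤ G₀)
    (hs : (1 / r : ℝ) * (N * (G₀ - (1 / r : ℝ) * (G₀ * B + h))) ≤ s) :
    (l : ℝ) / d * (N * (G₀ / 2)) ≤ s := by
  have h1 : (1 / r : ℝ) * (G₀ * B + h) ≤ G₀ / 2 :=
    (mul_le_mul_of_nonneg_right hr2 hB).trans hsmall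
  have h2 : N * (G₀ / 2) ≤ N * (G₀ - (1 / r : ℝ) * (G₀ * B + h)) :=
    mul_le_mul_of_nonneg_left (by linarith) hN
  have h3 : (l : ℝ) / d * (N * (G₀ / 2)) ≤ 1 / r * (N * (G₀ / 2)) :=
    mul_le_mul_of_nonneg_right hr1 (by positivity)
  have h4 : (1 / r : ℝ) * (N * (G₀ / 2)) ≤
      (1 / r : ℝ) * (N * (G₀ - (1 / r : ℝ) * (G₀ * B + h))) :=
    mul_le_mul_of_nonneg_left h2 (by positivity)
  linarith

/-- The pinning process in a regular graph of large degree without complete components. -/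
theorem exists_gain {A c : ℝ} (hA : 0 < A) (hc : 0 < c) : ∃ K : ℝ, 0 < K ∧
    ∀ (d : ℕ) (g h : ℝ), K ≤ d → K ≤ g * d → 0 ≤ h → K * h ≤ d →
    ∀ {V : Type*} [Fintype V] [DecidableEq V] (G : SimpleGraph V) [DecidableRel G.Adj],
      G.IsRegularOfDegree d →
      (∀ Q : Finset V, Q.card = d + 1 → ¬ ∀ v ∈ Q, ∀ w ∈ Q, v ≠ w → G.Adj v w) →
      ∃ D s, Gain G d g c h D s ∧ A * Fintype.card V / d ^ 2 ≤ s := by
  classical
  obtain ⟨l', hl'⟩ := exists_nat_gt (32 * A / c)
  have hl'0 : (0 : ℝ) < l' := lt_trans (by positivity) hl'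
  have hl'N : 0 < l' := by exact_mod_cast hl'0
  set f : ℕ := 16 * l' with hf
  have hfN : 0 < f := by omega
  have hf0 : (0 : ℝ) < f := by exact_mod_cast hfN
  obtain ⟨l, hl⟩ := exists_nat_gt (64 * f * A / c)
  have hl0 : (0 : ℝ) < l := lt_trans (by positivity) hl
  have hlN : 0 < l := by exact_mod_cast hl0
  set e : ℕ := 24 * l + 32 * l' + 2 * f + 4 with he
  have he0 : (0 : ℝ) < e := by
    have : 0 < e := by omega
    exact_mod_cast this
  refine ⟨l + l' + 8 * f + 16 * l' / c + 64 * f * l / c + 8 * A + 2 * (14 + e) * A, by positivity,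
    ?_⟩
  intro d g h hKd hKg hh hKh V _ _ G _ hreg hfree
  have hp1 : 0 < 16 * (l' : ℝ) / c := by positivity
  have hp2 : 0 < 64 * (f : ℝ) * l / c := by positivity
  have hp3 : 0 < 2 * (14 + (e : ℝ)) * A := by positivity
  have hld : (l : ℝ) ≤ d := by linarith
  have hl'd : (l' : ℝ) ≤ d := by linarith
  have hfd : 8 * (f : ℝ) ≤ d := by linarith
  have hdpos : (0 : ℝ) < d := by linarith
  have hdN : 0 < d := by exact_mod_cast hdpos
  have hldN : l ≤ d := by exact_mod_cast hld
  have hl'dN : l' ≤ d := by exact_mod_cast hl'd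
  have hfdN : 8 * f ≤ d := by exact_mod_cast hfd
  have hgpos : 0 < g := by
    have h1 : 0 < g * d := by linarith
    exact (pos_iff_pos_of_mul_pos h1).2 hdpos
  set n : ℝ := (Fintype.card V : ℝ) with hn
  have hn0 : 0 ≤ n := by positivity
  rcases exists_blocks (c := c) (h := h) hdN (e := e) (by omega) hgpos.le hreg hfree with
    ⟨D, s, hD, hs⟩ | ⟨𝒬, hB, hn𝒬⟩
  · -- large gain of the greedy process
    refine ⟨D, s, hD, le_trans ?_ hs⟩
    rw [div_le_div_iff₀ (by positivity) (by positivity)]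
    have h1 : 2 * (14 + (e : ℝ)) * A ≤ g * d := by linarith
    have h2 := mul_le_mul_of_nonneg_right h1 (by positivity : 0 ≤ n * d)
    nlinarith
  -- the two kinds of blocks
  have hn𝒬' : n ≤ 2 * d * 𝒬.card := by
    rw [hn]
    exact_mod_cast hn𝒬
  set 𝒜 := 𝒬.filter fun Q => ∃ x ∈ bd G Q, f * seen G Q x + d ≤ f * d with h𝒜
  set ℬ := 𝒬.filter fun Q => ¬ ∃ x ∈ bd G Q, f * seen G Q x + d ≤ f * d with hℬ
  have hcard : 𝒜.card + ℬ.card = 𝒬.card := Finset.card_filter_add_card_filter_not _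
  have hℬT : ∀ Q ∈ ℬ, Q ∈ 𝒬 ∧ Tight G d f Q := by
    intro Q hQ
    obtain ⟨h1, h2⟩ := Finset.mem_filter.1 hQ
    push Not at h2
    exact ⟨h1, h2⟩
  by_cases hα : 𝒬.card ≤ 2 * 𝒜.card
  · -- case alpha
    obtain ⟨hr, hr1, hr2⟩ := div_bounds hlN hldN
    obtain ⟨D, s, hD, hs⟩ := case_alpha (g := g) hdN hreg hh hc.le hfN (by omega) hfdN hB
      (Finset.filter_subset _ _) (fun Q hQ => (Finset.mem_filter.1 hQ).2) hr
    refine ⟨D, s, hD, ?_⟩
    have h1 := class_bound hdN (Nat.cast_nonneg _) hr1 hr2 (by positivity) ?_ (by positivity) hs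
    · refine le_trans ?_ h1
      have h2 : (𝒬.card : ℝ) ≤ 2 * 𝒜.card := by exact_mod_cast hα
      have h3 : n ≤ 4 * d * 𝒜.card := by nlinarith
      have h4 : 64 * f * A ≤ l * c := by
        rw [div_lt_iff₀ hc] at hl
        exact hl.le
      rw [div_le_iff₀ (by positivity)]
      have h5 : (l : ℝ) / d * (𝒜.card * (c / (8 * f) / 2)) * d ^ 2 =
          (4 * d * 𝒜.card) * (l * c) / (64 * f) := by
        field_simp
        ring
      rw [h5, le_div_iff₀ (by positivity)]
      calc A * n * (64 * f) = n * (64 * f * A) := by ring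
        _ ≤ (4 * d * 𝒜.card) * (l * c) := mul_le_mul h3 h4 (by positivity) (by positivity)
    · have h2 : 2 * (l : ℝ) / d * (c / (8 * f) * (3 * d / e)) = 6 * l / e * (c / (8 * f)) := by
        field_simp
        ring
      have h3 : 6 * (l : ℝ) / e ≤ 1 / 4 := by
        rw [div_le_iff₀ he0]
        have : (24 * l : ℝ) ≤ e := by
          have : 24 * l ≤ e := by omega
          exact_mod_cast this
        linarith
      have h4 : 2 * (l : ℝ) / d * h ≤ c / (8 * f) / 4 := by
        rw [div_mul_eq_mul_div, div_le_iff₀ hdpos]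
        have h5 : 64 * f * l / c * h ≤ d := by
          refine le_trans (mul_le_mul_of_nonneg_right ?_ hh) hKh
          linarith
        have h6 : 64 * f * l / c * h = 2 * l * h * (32 * f / c) := by ring
        rw [h6] at h5
        have h7 : 0 < 32 * (f : ℝ) / c := by positivity
        rw [← le_div_iff₀ h7] at h5
        refine h5.trans (le_of_eq ?_)
        field_simp
        norm_num
      rw [mul_add, h2]
      have h8 : 6 * (l : ℝ) / e * (c / (8 * f)) ≤ 1 / 4 * (c / (8 * f)) :=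
        mul_le_mul_of_nonneg_right h3 (by positivity)
      linarith
  · -- case beta
    have hβ : 𝒬.card ≤ 2 * ℬ.card := by omega
    have hℬne : ℬ.Nonempty := by
      rw [← Finset.card_pos]
      omega
    have hpair : ∀ Q ∈ ℬ, ∃ p ∈ bd G Q, ∃ p', (p' ∈ Q ∨ p' ∈ bd G Q) ∧ p ≠ p' ∧
        ¬ G.Adj p p' := fun Q hQ => hB.exists_pair hreg (by omega) hfree (hℬT Q hQ).1
    have hV : Nonempty V := ⟨(hpair _ hℬne.choose_spec).choose⟩
    choose! p hp p' hp' hne hnadj using hpair
    set linked : Finset V → Prop := fun Q => ∃ x, (x = p Q ∨ x = p' Q) ∧ x ∈ bd G Q ∧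
      ∃ Q' ∈ ℬ, Q' ≠ Q ∧ ∃ x', (x' = p Q' ∨ x' = p' Q') ∧ x' ∈ bd G Q' ∧ G.Adj x x' with hlinked
    have hcardβ : (ℬ.filter linked).card + (ℬ.filter fun Q => ¬ linked Q).card = ℬ.card :=
      Finset.card_filter_add_card_filter_not _
    by_cases hβ1 : ℬ.card ≤ 2 * (ℬ.filter fun Q => ¬ linked Q).card
    · -- unlinked
      obtain ⟨D, hD⟩ := case_unlinked (g := g) (c := c) (h := h) hdN hreg (f := f) (by omega)
        (by omega) hB (𝒰 := ℬ.filter fun Q => ¬ linked Q)
        (fun Q hQ => hℬT Q (Finset.mem_filter.1 hQ).1) p p'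
        (fun Q hQ => hp Q (Finset.mem_filter.1 hQ).1)
        (fun Q hQ => hp' Q (Finset.mem_filter.1 hQ).1)
        (fun Q hQ => ⟨hne Q (Finset.mem_filter.1 hQ).1, hnadj Q (Finset.mem_filter.1 hQ).1⟩)
        (by
          intro Q hQ Q' hQ' hQQ' x hx hxb x' hx' hxb' hadj
          exact (Finset.mem_filter.1 hQ).2 ⟨x, hx, hxb, Q', (Finset.mem_filter.1 hQ').1,
            hQQ'.symm, x', hx', hxb', hadj⟩)
      refine ⟨D, _, hD, ?_⟩
      set u := (ℬ.filter fun Q => ¬ linked Q).card
      have h1 : (𝒬.card : ℝ) ≤ 4 * u := by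
        have : 𝒬.card ≤ 4 * u := by omega
        exact_mod_cast this
      have h2 : n ≤ 8 * d * u := by nlinarith
      have h3 : 8 * A ≤ g * d := by linarith
      rw [div_le_iff₀ (by positivity)]
      have h4 : A * n ≤ A * (8 * d * u) := mul_le_mul_of_nonneg_left h2 hA.le
      have h5 : 8 * A * (d * u) ≤ g * d * (d * u) :=
        mul_le_mul_of_nonneg_right h3 (by positivity)
      nlinarith
    · -- linked
      obtain ⟨hr, hr1, hr2⟩ := div_bounds hl'N hl'dN
      obtain ⟨D, s, hD, hs⟩ := case_linked (g := g) hdN hreg hh hc.le (f := f) (by omega)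
        (by omega) hB (ℒ := ℬ.filter linked) (fun Q hQ => hℬT Q (Finset.mem_filter.1 hQ).1)
        (by
          intro Q hQ
          obtain ⟨x, -, hxb, Q', hQ', hQQ', x', -, hxb', hadj⟩ := (Finset.mem_filter.1 hQ).2
          exact ⟨x, hxb, Q', (hℬT Q' hQ').1, (hℬT Q' hQ').2, hQQ', x', hxb', hadj⟩) hr
      refine ⟨D, s, hD, ?_⟩
      have h1 := class_bound hdN (Nat.cast_nonneg _) hr1 hr2 (by positivity) ?_ (by positivity) hs
      · refine le_trans ?_ h1
        set u := (ℬ.filter linked).card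
        have h2 : (𝒬.card : ℝ) ≤ 4 * u := by
          have : 𝒬.card ≤ 4 * u := by omega
          exact_mod_cast this
        have h3 : n ≤ 8 * d * u := by nlinarith
        have h4 : 32 * A ≤ l' * c := by
          rw [div_lt_iff₀ hc] at hl'
          exact hl'.le
        rw [div_le_iff₀ (by positivity)]
        have h5 : (l' : ℝ) / d * (u * (c / 2 / 2)) * d ^ 2 = (8 * d * u) * (l' * c) / 32 := by
          field_simp
          ring
        rw [h5, le_div_iff₀ (by positivity)]
        calc A * n * 32 = n * (32 * A) := by ring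
          _ ≤ (8 * d * u) * (l' * c) := mul_le_mul h3 h4 (by positivity) (by positivity)
      · have h2 : 2 * (l' : ℝ) / d * (c / 2 * (d / f + 2 * d / e)) =
            (2 * l' / f + 4 * l' / e) * (c / 2) := by
          field_simp
          ring
        have h3 : 2 * (l' : ℝ) / f + 4 * l' / e ≤ 1 / 4 := by
          have h4 : 2 * (l' : ℝ) / f ≤ 1 / 8 := by
            rw [div_le_iff₀ hf0, hf]
            push_cast
            linarith
          have h5 : 4 * (l' : ℝ) / e ≤ 1 / 8 := by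
            rw [div_le_iff₀ he0]
            have : (32 * l' : ℝ) ≤ e := by
              have : 32 * l' ≤ e := by omega
              exact_mod_cast this
            linarith
          linarith
        have h4 : 2 * (l' : ℝ) / d * h ≤ c / 2 / 4 := by
          rw [div_mul_eq_mul_div, div_le_iff₀ hdpos]
          have h5 : 16 * l' / c * h ≤ d := by
            refine le_trans (mul_le_mul_of_nonneg_right ?_ hh) hKh
            linarith
          have h6 : 16 * l' / c * h = 2 * l' * h * (8 / c) := by ring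
          rw [h6] at h5
          have h7 : 0 < 8 / c := by positivity
          rw [← le_div_iff₀ h7] at h5
          refine h5.trans (le_of_eq ?_)
          field_simp
          norm_num
        rw [mul_add, h2]
        have h8 : (2 * (l' : ℝ) / f + 4 * l' / e) * (c / 2) ≤ 1 / 4 * (c / 2) :=
          mul_le_mul_of_nonneg_right h3 (by positivity)
        linarith

end Pool.Agent.MP_a3e05c_co.Pins
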