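import Pool.Agent.Lib.MP_a3e05c_co.Pins.Defs

set_option autoImplicit false

/-!
# MP_a3e05c_co, pins: the greedy process; its stuck states consist of almost complete blocks
-/

namespace Pool.Agent.MP_a3e05c_co.Pins

open Finset

variable {V : Type*} [Fintype V] [DecidableEq V] {G : SimpleGraph V} [DecidableRel G.Adj]

section Seen

omit [Fintype V] in
theorem seen_insert {D : Finset V} {z : V} (hz : z ∉ D) (v : V) :
    seen G (insert z D) v = seen G D v + if G.Adj v z then 1 else 0 := by
  unfold seen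
  rw [Finset.filter_insert]
  split_ifs with h
  · rw [Finset.card_insert_of_notMem fun h1 => hz (Finset.mem_filter.1 h1).1]
  · rfl

omit [Fintype V] [DecidableEq V] in
theorem seen_eq_zero_iff {D : Finset V} {v : V} : seen G D v = 0 ↔ ∀ p ∈ D, ¬ G.Adj v p := by
  unfold seen
  rw [Finset.card_eq_zero, Finset.filter_eq_empty_iff]

omit [Fintype V] [DecidableEq V] in
theorem seen_eq_one {D : Finset V} {v p : V} (hp : p ∈ D) (hv : G.Adj v p)
    (h : ∀ q ∈ D, G.Adj v q → q = p) : seen G D v = 1 := by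
  unfold seen
  rw [Finset.card_eq_one]
  refine ⟨p, ?_⟩
  ext q
  rw [Finset.mem_filter, Finset.mem_singleton]
  constructor
  · rintro ⟨h1, h2⟩
    exact h q h1 h2
  · rintro rfl
    exact ⟨hp, hv⟩

variable {d : ℕ}

/-- Counting: `∑ seen = d |D|`. -/
theorem sum_seen (hreg : G.IsRegularOfDegree d) (D : Finset V) :
    ∑ v, seen G D v = d * D.card := by
  unfold seen
  simp_rw [Finset.card_filter]
  rw [Finset.sum_comm]
  have h1 : ∀ p ∈ D, ∑ v : V, (if G.Adj v p then 1 else 0) = d := by
    intro p _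
    rw [← Finset.card_filter, ← hreg p, ← G.card_neighborFinset_eq_degree]
    congr 1
    ext v
    simp [G.adj_comm]
  rw [Finset.sum_congr rfl h1, Finset.sum_const, smul_eq_mul, mul_comm]

/-- The vertices seen at least twice. -/
def twice (G : SimpleGraph V) [DecidableRel G.Adj] (D : Finset V) : Finset V :=
  Finset.univ.filter fun v => 2 ≤ seen G D v

theorem two_mul_card_twice (hreg : G.IsRegularOfDegree d) (D : Finset V) :
    2 * (twice G D).card ≤ d * D.card := by
  rw [← sum_seen hreg D]
  calc 2 * (twice G D).card = ∑ v ∈ twice G D, 2 := by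
        rw [Finset.sum_const, smul_eq_mul, mul_comm]
    _ ≤ ∑ v ∈ twice G D, seen G D v :=
        Finset.sum_le_sum fun v hv => (Finset.mem_filter.1 hv).2
    _ ≤ ∑ v, seen G D v := Finset.sum_le_sum_of_subset (Finset.subset_univ _)

theorem sum_nb2 (hreg : G.IsRegularOfDegree d) (D S : Finset V) :
    ∑ z ∈ S, nb2 G D z ≤ d * (twice G D).card := by
  calc ∑ z ∈ S, nb2 G D z ≤ ∑ z, nb2 G D z :=
        Finset.sum_le_sum_of_subset (Finset.subset_univ _)
    _ ≤ ∑ z : V, ∑ v ∈ twice G D, (if G.Adj v z then 1 else 0) := by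
        refine Finset.sum_le_sum fun z _ => ?_
        unfold nb2
        rw [← Finset.card_filter]
        refine Finset.card_le_card fun v hv => ?_
        obtain ⟨-, h1, -, h3⟩ := Finset.mem_filter.1 hv
        exact Finset.mem_filter.2 ⟨Finset.mem_filter.2 ⟨Finset.mem_univ _, h3⟩, h1.symm⟩
    _ = ∑ v ∈ twice G D, d := by
        rw [Finset.sum_comm]
        refine Finset.sum_congr rfl fun v _ => ?_
        rw [← Finset.card_filter, ← hreg v, ← G.card_neighborFinset_eq_degree]
        congr 1
        ext z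
        simp
    _ = d * (twice G D).card := by rw [Finset.sum_const, smul_eq_mul, mul_comm]

/-- The free vertices. -/
def free (G : SimpleGraph V) [DecidableRel G.Adj] (D : Finset V) : Finset V :=
  Finset.univ.filter fun v => v ∉ D ∧ seen G D v = 0

theorem mem_free {D : Finset V} {v : V} : v ∈ free G D ↔ v ∉ D ∧ seen G D v = 0 := by
  simp [free]

theorem card_le_free (hreg : G.IsRegularOfDegree d) (D : Finset V) :
    Fintype.card V ≤ (free G D).card + (d + 1) * D.card := by
  have h1 : (Finset.univ : Finset V) ⊆ free G D ∪ (D ∪ Finset.univ.filter fun v =>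
      1 ≤ seen G D v) := by
    intro v _
    by_cases h2 : v ∈ D
    · simp [h2]
    · by_cases h3 : seen G D v = 0
      · exact Finset.mem_union_left _ (mem_free.2 ⟨h2, h3⟩)
      · refine Finset.mem_union_right _ (Finset.mem_union_right _ ?_)
        exact Finset.mem_filter.2 ⟨Finset.mem_univ _, Nat.one_le_iff_ne_zero.2 h3⟩
  have h2 := Finset.card_le_card h1
  have h3 : (Finset.univ.filter fun v => 1 ≤ seen G D v).card ≤ d * D.card := by
    rw [← sum_seen hreg D]
    calc (Finset.univ.filter fun v => 1 ≤ seen G D v).card =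
          ∑ v ∈ Finset.univ.filter fun v => 1 ≤ seen G D v, 1 := by simp
      _ ≤ ∑ v ∈ Finset.univ.filter fun v => 1 ≤ seen G D v, seen G D v :=
          Finset.sum_le_sum fun v hv => (Finset.mem_filter.1 hv).2
      _ ≤ ∑ v, seen G D v := Finset.sum_le_sum_of_subset (Finset.subset_univ _)
  have h4 := Finset.card_union_le (free G D) (D ∪ Finset.univ.filter fun v => 1 ≤ seen G D v)
  have h5 := Finset.card_union_le D (Finset.univ.filter fun v => 1 ≤ seen G D v)
  rw [Finset.card_univ] at h2
  nlinarith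

theorem nb_sum (hreg : G.IsRegularOfDegree d) {D : Finset V} {z : V} (hz : seen G D z = 0) :
    nb0 G D z + nb1 G D z + nb2 G D z = d := by
  have h0 : ∀ v, G.Adj z v → v ∉ D := fun v hv hD => seen_eq_zero_iff.1 hz v hD hv
  rw [← hreg z, ← G.card_neighborFinset_eq_degree]
  unfold nb0 nb1 nb2
  rw [← Finset.card_union_of_disjoint, ← Finset.card_union_of_disjoint]
  · congr 1
    ext v
    simp only [Finset.mem_union, Finset.mem_filter, Finset.mem_univ, true_and,
      SimpleGraph.mem_neighborFinset]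
    constructor
    · rintro ((h | h) | h) <;> exact h.1
    · intro h
      have h1 := h0 v h
      rcases Nat.lt_or_ge (seen G D v) 2 with h2 | h2
      · have h3 : seen G D v = 0 ∨ seen G D v = 1 := by omega
        tauto
      · tauto
  · rw [Finset.disjoint_left]
    intro v h1 h2
    simp only [Finset.mem_union, Finset.mem_filter, Finset.mem_univ, true_and] at h1 h2
    omega
  · rw [Finset.disjoint_left]
    intro v h1 h2
    simp only [Finset.mem_filter, Finset.mem_univ, true_and] at h1 h2
    omega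

/-- The closed neighbourhood of `z` among the free vertices. -/
def block (G : SimpleGraph V) [DecidableRel G.Adj] (D : Finset V) (z : V) : Finset V :=
  (free G D).filter fun w => w = z ∨ G.Adj z w

theorem mem_block {D : Finset V} {z w : V} :
    w ∈ block G D z ↔ w ∈ free G D ∧ (w = z ∨ G.Adj z w) := by
  simp [block]

theorem card_block {D : Finset V} {z : V} (hz : z ∈ free G D) :
    (block G D z).card = nb0 G D z + 1 := by
  have h1 : block G D z = insert z (Finset.univ.filter fun v =>
      G.Adj z v ∧ v ∉ D ∧ seen G D v = 0) := by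
    ext w
    rw [mem_block, Finset.mem_insert, Finset.mem_filter, mem_free]
    constructor
    · rintro ⟨⟨h1, h2⟩, h3⟩
      rcases h3 with h3 | h3
      · exact Or.inl h3
      · exact Or.inr ⟨Finset.mem_univ _, h3, h1, h2⟩
    · rintro (h3 | ⟨-, h3, h1, h2⟩)
      · subst h3
        exact ⟨mem_free.1 hz, Or.inl rfl⟩
      · exact ⟨⟨h1, h2⟩, Or.inr h3⟩
  rw [h1, Finset.card_insert_of_notMem]
  · rfl
  · simp

end Seen

/-- Almost complete blocks, pairwise disjoint and without edges between them. -/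
structure Blocks (G : SimpleGraph V) (d e : ℕ) (𝒬 : Finset (Finset V)) : Prop where
  clique : ∀ Q ∈ 𝒬, ∀ v ∈ Q, ∀ w ∈ Q, v ≠ w → G.Adj v w
  card_le : ∀ Q ∈ 𝒬, Q.card ≤ d
  le_card : ∀ Q ∈ 𝒬, e * (d + 1) ≤ e * Q.card + d
  disj : ∀ Q ∈ 𝒬, ∀ Q' ∈ 𝒬, ∀ v ∈ Q, v ∈ Q' → Q = Q'
  sep : ∀ Q ∈ 𝒬, ∀ Q' ∈ 𝒬, ∀ v ∈ Q, ∀ w ∈ Q', G.Adj v w → Q = Q'

section Stuck

variable {d : ℕ} {g c h : ℝ}

/-- The states of the greedy process with `m` good steps. -/
def State (G : SimpleGraph V) [DecidableRel G.Adj] (d : ℕ) (g c h : ℝ) (D : Finset V) (m : ℕ) :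
    Prop :=
  (∀ x ∈ D, seen G D x = 0) ∧ D.card ≤ 2 * m ∧ m ≤ D.card ∧ Gain G d g c h D (g * m)

theorem exists_maximal_state : ∃ D m, State G d g c h D m ∧
    ∀ D' m', State G d g c h D' m' → m' ≤ m := by
  classical
  have h0 : State G d g c h (∅ : Finset V) 0 :=
    ⟨by simp, by simp, by simp, by simpa using (Gain.empty : Gain G d g c h ∅ 0)⟩
  have hb : ∀ D' m', State G d g c h D' m' → m' ≤ Fintype.card V := fun D' m' hs =>
    hs.2.2.1.trans (Finset.card_le_univ _)
  set m := Nat.findGreatest (fun m => ∃ D, State G d g c h D m) (Fintype.card V) with hm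
  have h1 : ∃ D, State G d g c h D m :=
    Nat.findGreatest_spec (P := fun m => ∃ D, State G d g c h D m) (Nat.zero_le _) ⟨∅, h0⟩
  obtain ⟨D, hD⟩ := h1
  exact ⟨D, m, hD, fun D' m' hs => Nat.le_findGreatest (hb D' m' hs) ⟨D', hs⟩⟩

theorem State.indep_insert {D : Finset V} {z : V} (hD : ∀ x ∈ D, seen G D x = 0) (hz : z ∉ D)
    (hs : seen G D z = 0) : ∀ x ∈ insert z D, seen G (insert z D) x = 0 := by
  intro x hx
  rw [seen_insert hz]
  rw [Finset.mem_insert] at hx
  rcases hx with rfl | hx
  · simp [hs]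
  · rw [hD x hx, if_neg]
    intro h1
    exact seen_eq_zero_iff.1 hs x hx h1.symm

variable {D : Finset V} {m : ℕ}

theorem stuck_one (hD : State G d g c h D m) (hmax : ∀ D' m', State G d g c h D' m' → m' ≤ m)
    {z : V} (hz : z ∈ free G D) (h1 : 1 ≤ nb1 G D z) : d < 2 * nb2 G D z := by
  by_contra hcon
  push Not at hcon
  obtain ⟨hzD, hs⟩ := mem_free.1 hz
  have h2 : State G d g c h (insert z D) (m + 1) := by
    refine ⟨State.indep_insert hD.1 hzD hs, ?_, ?_, ?_⟩
    · rw [Finset.card_insert_of_notMem hzD]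
      have := hD.2.1
      omega
    · rw [Finset.card_insert_of_notMem hzD]
      have := hD.2.2.1
      omega
    · have h3 := hD.2.2.2.good hzD hs h1 hcon
      have h4 : g * ((m + 1 : ℕ) : ℝ) = g * m + g := by push_cast; ring
      rw [h4]
      exact h3
  have := hmax _ _ h2
  omega

theorem stuck_two (hD : State G d g c h D m) (hmax : ∀ D' m', State G d g c h D' m' → m' ≤ m)
    {z w v : V} (hz : z ∈ free G D) (h2 : 2 * nb2 G D z ≤ d) (hw : w ∈ free G D)
    (hv : v ∈ free G D) (hzv : G.Adj z v) (hwv : G.Adj v w) (hne : w ≠ z) : G.Adj z w := by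
  by_contra hzw
  have h1 : nb1 G D z = 0 := by
    by_contra hc
    have := stuck_one hD hmax hz (Nat.one_le_iff_ne_zero.2 hc)
    omega
  obtain ⟨hzD, hs⟩ := mem_free.1 hz
  obtain ⟨hwD, hsw⟩ := mem_free.1 hw
  obtain ⟨hvD, hsv⟩ := mem_free.1 hv
  have hz1 : z ∉ insert w D := by
    rw [Finset.mem_insert]
    push Not
    exact ⟨fun h => hne h.symm, hzD⟩
  have hs1 : seen G (insert w D) z = 0 := by
    rw [seen_insert hwD, hs, if_neg hzw]
  have hn1 : 1 ≤ nb1 G (insert w D) z := by
    unfold nb1
    rw [Nat.one_le_iff_ne_zero, ← Nat.pos_iff_ne_zero, Finset.card_pos]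
    refine ⟨v, Finset.mem_filter.2 ⟨Finset.mem_univ _, hzv, ?_, ?_⟩⟩
    · rw [Finset.mem_insert]
      push Not
      exact ⟨hwv.ne, hvD⟩
    · rw [seen_insert hwD, hsv, if_pos hwv]
  have hn2 : nb2 G (insert w D) z ≤ nb2 G D z := by
    unfold nb2
    refine Finset.card_le_card fun x hx => ?_
    obtain ⟨-, h3, h4, h5⟩ := Finset.mem_filter.1 hx
    rw [Finset.mem_insert] at h4
    push Not at h4
    refine Finset.mem_filter.2 ⟨Finset.mem_univ _, h3, h4.2, ?_⟩
    rw [seen_insert hwD] at h5
    by_contra h6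
    have h7 : seen G D x = 1 := by
      split_ifs at h5 <;> omega
    unfold nb1 at h1
    rw [Finset.card_eq_zero, Finset.filter_eq_empty_iff] at h1
    exact h1 (Finset.mem_univ x) ⟨h3, h4.2, h7⟩
  have h8 : State G d g c h (insert z (insert w D)) (m + 1) := by
    refine ⟨State.indep_insert (State.indep_insert hD.1 hwD hsw) hz1 hs1, ?_, ?_, ?_⟩
    · rw [Finset.card_insert_of_notMem hz1, Finset.card_insert_of_notMem hwD]
      have := hD.2.1
      omega
    · rw [Finset.card_insert_of_notMem hz1, Finset.card_insert_of_notMem hwD]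
      have := hD.2.2.1
      omega
    · have h3 := (hD.2.2.2.hub hwD).good hz1 hs1 hn1 (by omega)
      have h4 : g * ((m + 1 : ℕ) : ℝ) = g * m - h * (seen G D w : ℝ) / d + g := by
        rw [hsw]
        push_cast
        ring
      rw [h4]
      exact h3
  have := hmax _ _ h8
  omega

/-- The vertices with few neighbours seen twice. -/
def calm (G : SimpleGraph V) [DecidableRel G.Adj] (d : ℕ) (D : Finset V) : Finset V :=
  (free G D).filter fun z => 2 * nb2 G D z ≤ d

/-- The other free vertices. -/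
def wild (G : SimpleGraph V) [DecidableRel G.Adj] (d : ℕ) (D : Finset V) : Finset V :=
  (free G D).filter fun z => ¬ 2 * nb2 G D z ≤ d

theorem block_closed (hD : State G d g c h D m)
    (hmax : ∀ D' m', State G d g c h D' m' → m' ≤ m) {z v w : V} (hz : z ∈ calm G d D)
    (hv : v ∈ block G D z) (hw : w ∈ free G D) (hvw : G.Adj v w) : w ∈ block G D z := by
  obtain ⟨hzf, hz2⟩ := Finset.mem_filter.1 hz
  obtain ⟨hvf, hzv⟩ := mem_block.1 hv
  refine mem_block.2 ⟨hw, ?_⟩
  by_cases hne : w = z
  · exact Or.inl hne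
  · right
    rcases hzv with rfl | hzv
    · exact hvw
    · exact stuck_two hD hmax hzf hz2 hw hvf hzv hvw hne

theorem self_mem_block {z : V} (hz : z ∈ free G D) : z ∈ block G D z :=
  mem_block.2 ⟨hz, Or.inl rfl⟩

theorem block_symm {z w : V} (hz : z ∈ free G D) (hw : w ∈ block G D z) : z ∈ block G D w := by
  obtain ⟨-, h1⟩ := mem_block.1 hw
  refine mem_block.2 ⟨hz, ?_⟩
  rcases h1 with rfl | h1
  · exact Or.inl rfl
  · exact Or.inr h1.symm

theorem block_subset (hD : State G d g c h D m)
    (hmax : ∀ D' m', State G d g c h D' m' → m' ≤ m) {z z' : V} (hz' : z' ∈ calm G d D)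
    (h1 : z ∈ block G D z') : block G D z ⊆ block G D z' := by
  intro w hw
  obtain ⟨hwf, h2⟩ := mem_block.1 hw
  rcases h2 with rfl | h2
  · exact h1
  · exact block_closed hD hmax hz' h1 hwf h2

theorem block_eq (hD : State G d g c h D m)
    (hmax : ∀ D' m', State G d g c h D' m' → m' ≤ m) {z z' : V} (hz : z ∈ calm G d D)
    (hz' : z' ∈ calm G d D) (h1 : z' ∈ block G D z) : block G D z' = block G D z :=
  Finset.Subset.antisymm (block_subset hD hmax hz h1)
    (block_subset hD hmax hz' (block_symm (Finset.mem_filter.1 hz).1 h1))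

theorem card_block_calm (hreg : G.IsRegularOfDegree d) (hD : State G d g c h D m)
    (hmax : ∀ D' m', State G d g c h D' m' → m' ≤ m) {z : V} (hz : z ∈ calm G d D) :
    (block G D z).card + nb2 G D z = d + 1 := by
  obtain ⟨hzf, hz2⟩ := Finset.mem_filter.1 hz
  have h1 : nb1 G D z = 0 := by
    by_contra hc
    have := stuck_one hD hmax hzf (Nat.one_le_iff_ne_zero.2 hc)
    omega
  have h2 := nb_sum hreg (mem_free.1 hzf).2
  rw [card_block hzf]
  omega

/-- A calm block containing a wild vertex contains many of them. -/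
theorem card_wild_block (hreg : G.IsRegularOfDegree d) (hD : State G d g c h D m)
    (hmax : ∀ D' m', State G d g c h D' m' → m' ≤ m) {z x : V} (hz : z ∈ calm G d D)
    (h4 : 4 * nb2 G D z ≤ d) (hx : x ∈ block G D z) (hxw : x ∈ wild G d D) :
    d ≤ 4 * ((block G D z).filter fun y => y ∈ wild G d D).card := by
  have h1 := card_block_calm hreg hD hmax hz
  obtain ⟨hxf, hx2⟩ := Finset.mem_filter.1 hxw
  have h2 := nb_sum hreg (mem_free.1 hxf).2
  have h3 : ((block G D z).filter fun y => ¬ y ∈ wild G d D).card ≤ nb0 G D x := by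
    unfold nb0
    refine Finset.card_le_card fun y hy => ?_
    obtain ⟨hyb, hyw⟩ := Finset.mem_filter.1 hy
    have hyf := (mem_block.1 hyb).1
    have hyc : y ∈ calm G d D := by
      refine Finset.mem_filter.2 ⟨hyf, ?_⟩
      by_contra hc
      exact hyw (Finset.mem_filter.2 ⟨hyf, hc⟩)
    have hxy : x ∈ block G D y := by
      rw [block_eq hD hmax hz hyc hyb]
      exact hx
    obtain ⟨-, h5⟩ := mem_block.1 hxy
    have h6 : x ≠ y := by
      rintro rfl
      exact hyw hxw
    obtain ⟨h7, h8⟩ := mem_free.1 hyf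
    refine Finset.mem_filter.2 ⟨Finset.mem_univ _, ?_, h7, h8⟩
    rcases h5 with h5 | h5
    · exact absurd h5 h6
    · exact h5.symm
  have h5 := Finset.card_filter_add_card_filter_not (s := block G D z)
    (fun y => y ∈ wild G d D)
  omega

end Stuck

end Pool.Agent.MP_a3e05c_co.Pins
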