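import Pool.Agent.Lib.MP_a3e05c_co.Pins.Stuck

set_option autoImplicit false

/-!
# MP_a3e05c_co, pins: blocks from a stuck state
-/

namespace Pool.Agent.MP_a3e05c_co.Pins

open Finset

variable {V : Type*} [Fintype V] [DecidableEq V] {G : SimpleGraph V} [DecidableRel G.Adj]
  {d : ℕ} {g c h : ℝ} {D : Finset V} {m : ℕ}

theorem card_wild (hd : 0 < d) (hreg : G.IsRegularOfDegree d) (D : Finset V) :
    (wild G d D).card ≤ 2 * (twice G D).card := by
  have h1 : (wild G d D).card * d ≤ 2 * ∑ z ∈ wild G d D, nb2 G D z := by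
    rw [Finset.mul_sum, ← smul_eq_mul, ← Finset.sum_const]
    refine Finset.sum_le_sum fun z hz => ?_
    have := (Finset.mem_filter.1 hz).2
    omega
  have h2 := sum_nb2 hreg D (wild G d D)
  have h3 : (wild G d D).card * d ≤ 2 * (twice G D).card * d := by nlinarith
  exact Nat.le_of_mul_le_mul_right h3 hd

theorem card_bad_one (hd : 0 < d) (e : ℕ) (hreg : G.IsRegularOfDegree d) (D : Finset V) :
    ((calm G d D).filter fun z => ¬ e * nb2 G D z ≤ d).card ≤ e * (twice G D).card := by
  set B := (calm G d D).filter fun z => ¬ e * nb2 G D z ≤ d with hB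
  have h1 : B.card * d ≤ e * ∑ z ∈ B, nb2 G D z := by
    rw [Finset.mul_sum, ← smul_eq_mul, ← Finset.sum_const]
    refine Finset.sum_le_sum fun z hz => ?_
    have := (Finset.mem_filter.1 hz).2
    omega
  have h2 := sum_nb2 hreg D B
  have h3 : B.card * d ≤ e * (twice G D).card * d := by nlinarith
  exact Nat.le_of_mul_le_mul_right h3 hd

theorem card_bad_two (hd : 0 < d) {e : ℕ} (he : 4 ≤ e) (hreg : G.IsRegularOfDegree d)
    (hD : State G d g c h D m) (hmax : ∀ D' m', State G d g c h D' m' → m' ≤ m) :
    ((calm G d D).filter fun z => e * nb2 G D z ≤ d ∧ ∃ x ∈ block G D z, x ∈ wild G d D).card ≤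
      4 * (wild G d D).card := by
  set B := (calm G d D).filter fun z => e * nb2 G D z ≤ d ∧ ∃ x ∈ block G D z, x ∈ wild G d D
    with hB
  have h1 : B.card * d ≤ 4 * ∑ z ∈ B, seen G (wild G d D) z := by
    rw [Finset.mul_sum, ← smul_eq_mul, ← Finset.sum_const]
    refine Finset.sum_le_sum fun z hz => ?_
    obtain ⟨hzc, h2, x, hx, hxw⟩ := Finset.mem_filter.1 hz
    have h4 : 4 * nb2 G D z ≤ d := le_trans (Nat.mul_le_mul_right _ he) h2
    refine (card_wild_block hreg hD hmax hzc h4 hx hxw).trans ?_
    refine Nat.mul_le_mul_left 4 (Finset.card_le_card fun y hy => ?_)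
    obtain ⟨hyb, hyw⟩ := Finset.mem_filter.1 hy
    refine Finset.mem_filter.2 ⟨hyw, ?_⟩
    obtain ⟨-, h5⟩ := mem_block.1 hyb
    rcases h5 with rfl | h5
    · exact absurd (Finset.mem_filter.1 hzc).2 (Finset.mem_filter.1 hyw).2
    · exact h5
  have h2 : ∑ z ∈ B, seen G (wild G d D) z ≤ d * (wild G d D).card := by
    rw [← sum_seen hreg]
    exact Finset.sum_le_sum_of_subset (Finset.subset_univ _)
  have h3 : B.card * d ≤ 4 * (wild G d D).card * d := by nlinarith
  exact Nat.le_of_mul_le_mul_right h3 hd

/-- The greedy process gives a large gain or stops at a state made of almost complete blocks. -/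
theorem exists_blocks (hd : 0 < d) {e : ℕ} (he : 4 ≤ e) (hg : 0 ≤ g)
    (hreg : G.IsRegularOfDegree d)
    (hfree : ∀ Q : Finset V, Q.card = d + 1 → ¬ ∀ v ∈ Q, ∀ w ∈ Q, v ≠ w → G.Adj v w) :
    (∃ D s, Gain G d g c h D s ∧ g * Fintype.card V / (2 * (14 + e) * d) ≤ s) ∨
      ∃ 𝒬, Blocks G d e 𝒬 ∧ Fintype.card V ≤ 2 * d * 𝒬.card := by
  obtain ⟨D, m, hD, hmax⟩ := exists_maximal_state (G := G) (d := d) (g := g) (c := c) (h := h)
  by_cases hm : Fintype.card V ≤ 2 * (14 + e) * d * m
  · left
    refine ⟨D, g * m, hD.2.2.2, ?_⟩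
    have h1 : (Fintype.card V : ℝ) ≤ 2 * (14 + e) * d * m := by exact_mod_cast hm
    have hd' : (0 : ℝ) < d := by exact_mod_cast hd
    rw [div_le_iff₀ (by positivity)]
    nlinarith [mul_le_mul_of_nonneg_left h1 hg]
  · right
    push Not at hm
    set good := (calm G d D).filter fun z => e * nb2 G D z ≤ d ∧ ∀ x ∈ block G D z,
      x ∉ wild G d D with hgood
    -- the number of good vertices
    have hcard : Fintype.card V < 2 * good.card := by
      have h1 := card_le_free hreg D
      have h2 : (free G D).card ≤ (calm G d D).card + (wild G d D).card :=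
        le_of_eq (Finset.card_filter_add_card_filter_not _).symm
      have h3 : (calm G d D).card ≤ ((calm G d D).filter fun z => ¬ e * nb2 G D z ≤ d).card +
          (((calm G d D).filter fun z => e * nb2 G D z ≤ d ∧
            ∃ x ∈ block G D z, x ∈ wild G d D).card + good.card) := by
        rw [← Nat.add_assoc]
        refine le_trans (Finset.card_le_card (t := ((calm G d D).filter
          fun z => ¬ e * nb2 G D z ≤ d) ∪ ((calm G d D).filter fun z => e * nb2 G D z ≤ d ∧
            ∃ x ∈ block G D z, x ∈ wild G d D) ∪ good) fun z hz => ?_) ?_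
        · rw [Finset.mem_union, Finset.mem_union]
          by_cases h4 : e * nb2 G D z ≤ d
          · by_cases h5 : ∃ x ∈ block G D z, x ∈ wild G d D
            · exact Or.inl (Or.inr (Finset.mem_filter.2 ⟨hz, h4, h5⟩))
            · push Not at h5
              exact Or.inr (Finset.mem_filter.2 ⟨hz, h4, h5⟩)
          · exact Or.inl (Or.inl (Finset.mem_filter.2 ⟨hz, h4⟩))
        · refine (Finset.card_union_le _ _).trans ?_
          have := Finset.card_union_le ((calm G d D).filter fun z => ¬ e * nb2 G D z ≤ d)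
            ((calm G d D).filter fun z => e * nb2 G D z ≤ d ∧ ∃ x ∈ block G D z, x ∈ wild G d D)
          omega
      have h4 := card_bad_one hd e hreg D
      have h5 := card_bad_two hd he hreg hD hmax
      have h6 := card_wild hd hreg D
      have h7 := two_mul_card_twice hreg D
      have h8 := hD.2.1
      set T := (twice G D).card
      set w := (wild G d D).card
      have h9 : Fintype.card V ≤ good.card + (10 + e) * T + (d + 1) * D.card := by nlinarith
      have h10 : (10 + e) * (2 * T) ≤ (10 + e) * (d * D.card) := Nat.mul_le_mul_left _ h7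
      have h11 : 2 * ((d + 1) * D.card) ≤ 4 * (d * D.card) := by nlinarith
      have h12 : (14 + e) * (d * D.card) ≤ (14 + e) * (d * (2 * m)) :=
        Nat.mul_le_mul_left _ (Nat.mul_le_mul_left _ h8)
      nlinarith
    -- facts on the good vertices
    have hcalm : ∀ z ∈ good, ∀ y ∈ block G D z, y ∈ calm G d D := by
      intro z hz y hy
      obtain ⟨-, -, h1⟩ := Finset.mem_filter.1 hz
      have hyf := (mem_block.1 hy).1
      refine Finset.mem_filter.2 ⟨hyf, ?_⟩
      by_contra hc
      exact h1 y hy (Finset.mem_filter.2 ⟨hyf, hc⟩)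
    have heq : ∀ z ∈ good, ∀ y ∈ block G D z, block G D y = block G D z := fun z hz y hy =>
      block_eq hD hmax (Finset.mem_filter.1 hz).1 (hcalm z hz y hy) hy
    have hclique : ∀ z ∈ good, ∀ v ∈ block G D z, ∀ w ∈ block G D z, v ≠ w → G.Adj v w := by
      intro z hz v hv w hw hne
      rw [← heq z hz v hv] at hw
      rcases (mem_block.1 hw).2 with h1 | h1
      · exact absurd h1.symm hne
      · exact h1
    have hdisj : ∀ z ∈ good, ∀ z' ∈ good, ∀ v ∈ block G D z, v ∈ block G D z' →
        block G D z = block G D z' := by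
      intro z hz z' hz' v hv hv'
      rw [← heq z hz v hv, heq z' hz' v hv']
    refine ⟨good.image (block G D), ⟨?_, ?_, ?_, ?_, ?_⟩, ?_⟩
    · intro Q hQ
      obtain ⟨z, hz, rfl⟩ := Finset.mem_image.1 hQ
      exact hclique z hz
    · intro Q hQ
      obtain ⟨z, hz, rfl⟩ := Finset.mem_image.1 hQ
      have h1 := card_block_calm hreg hD hmax (Finset.mem_filter.1 hz).1
      by_contra hc
      exact hfree _ (by omega) (hclique z hz)
    · intro Q hQ
      obtain ⟨z, hz, rfl⟩ := Finset.mem_image.1 hQ
      have h1 := card_block_calm hreg hD hmax (Finset.mem_filter.1 hz).1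
      have h2 := (Finset.mem_filter.1 hz).2.1
      rw [← h1, Nat.mul_add]
      omega
    · intro Q hQ Q' hQ' v hv hv'
      obtain ⟨z, hz, rfl⟩ := Finset.mem_image.1 hQ
      obtain ⟨z', hz', rfl⟩ := Finset.mem_image.1 hQ'
      exact hdisj z hz z' hz' v hv hv'
    · intro Q hQ Q' hQ' v hv w hw hvw
      obtain ⟨z, hz, rfl⟩ := Finset.mem_image.1 hQ
      obtain ⟨z', hz', rfl⟩ := Finset.mem_image.1 hQ'
      have h1 : w ∈ block G D z := block_closed hD hmax (Finset.mem_filter.1 hz).1 hv
        (mem_block.1 hw).1 hvw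
      exact hdisj z hz z' hz' w h1 hw
    · have h1 : good ⊆ (good.image (block G D)).biUnion id := by
        intro z hz
        rw [Finset.mem_biUnion]
        exact ⟨block G D z, Finset.mem_image_of_mem _ hz,
          self_mem_block (Finset.mem_filter.1 (Finset.mem_filter.1 hz).1).1⟩
      have h2 : good.card ≤ (good.image (block G D)).card * d := by
        refine (Finset.card_le_card h1).trans ?_
        refine Finset.card_biUnion_le_card_mul _ _ _ fun Q hQ => ?_
        obtain ⟨z, hz, rfl⟩ := Finset.mem_image.1 hQ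
        have h1 := card_block_calm hreg hD hmax (Finset.mem_filter.1 hz).1
        change (block G D z).card ≤ d
        by_contra hc
        exact hfree _ (by omega) (hclique z hz)
      nlinarith

end Pool.Agent.MP_a3e05c_co.Pins
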